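import Pool.Agent.H864R3.Scal3

set_option autoImplicit false

namespace H864R3

open Matrix Finset
open scoped ComplexOrder

theorem pos_of_mul_pos_real {c z : ℂ} (hc : 0 < c) (h : 0 < c * z) : 0 < z := by
  have hc' : (0 : ℂ) < c⁻¹ := by
    obtain ⟨h1, h2⟩ := Complex.lt_def.mp hc
    have e : c = ((c.re : ℝ) : ℂ) := by
      apply Complex.ext
      · simp
      · simpa using h2.symm
    rw [e, ← Complex.ofReal_inv]
    have : (0 : ℝ) < c.re⁻¹ := inv_pos.mpr h1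
    exact_mod_cast this
  have e2 : z = c⁻¹ * (c * z) := by
    rw [← mul_assoc, inv_mul_cancel₀ hc.ne', one_mul]
  rw [e2]
  exact mul_pos hc' h

theorem mul_star_pos {z : ℂ} (hz : z ≠ 0) : 0 < z * star z := by
  have h6 : z * star z = ((Complex.normSq z : ℝ) : ℂ) := Complex.mul_conj _
  rw [h6]
  exact_mod_cast Complex.normSq_pos.mpr hz

/-- The double mixed discriminant of a positive linear map on `3 × 3` matrices is positive. -/
theorem core_pos {B : Fin 3 → Fin 3 → M3} (hB : BP B) : 0 < Phi6 B := by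
  obtain ⟨C, D, hC, hD, h1, h2⟩ := exists_scaling hB
  have hBP : BP (trD D (trC C B)) := BP_trD (BP_trC hB hC) hD
  have h3 : 0 < Phi6 (fun i j => (3 : ℂ) • trD D (trC C B) i j) := by
    apply r3_pos
    · intro ξ hξ
      have h4 := hBP ξ hξ
      have h5 : ∑ i, ∑ j, (ξ i * star (ξ j)) • ((3 : ℂ) • trD D (trC C B) i j) =
          (3 : ℝ) • ∑ i, ∑ j, (ξ i * star (ξ j)) • trD D (trC C B) i j := by
        simp only [Finset.smul_sum]
        refine Finset.sum_congr rfl fun i _ => Finset.sum_congr rfl fun j _ => ?_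
        ext a b
        simp
        ring
      rw [h5]
      exact h4.smul (by norm_num : (0 : ℝ) < 3)
    · rw [← Finset.smul_sum, h1]
    · intro i j
      rw [Matrix.trace_smul, h2 i j]
      split_ifs <;> simp
  rw [Phi6_smul, Phi6_trD, Phi6_trC] at h3
  have h27 : (0 : ℂ) < (3 : ℂ) ^ 3 := by
    have : (0 : ℝ) < 3 ^ 3 := by norm_num
    exact_mod_cast this
  exact pos_of_mul_pos_real (mul_star_pos hC) (pos_of_mul_pos_real (mul_star_pos hD)
    (pos_of_mul_pos_real h27 h3))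

/-- Semipositive version. -/
theorem core_nonneg {B : Fin 3 → Fin 3 → M3}
    (hB : ∀ ξ : Fin 3 → ℂ, (∑ i : Fin 3, ∑ j : Fin 3, (ξ i * star (ξ j)) • B i j).PosSemidef) :
    0 ≤ Phi6 B := by
  -- perturb
  set Bt : ℝ → Fin 3 → Fin 3 → M3 := fun t i j => B i j + (if i = j then ((t : ℂ) • 1) else 0)
    with hBt
  have hpos : ∀ t : ℝ, 0 < t → 0 < Phi6 (Bt t) := by
    intro t ht
    apply core_pos
    intro ξ hξ
    have e : ∑ i, ∑ j, (ξ i * star (ξ j)) • Bt t i j =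
        (∑ i, ∑ j, (ξ i * star (ξ j)) • B i j) +
          ((t * ∑ i, Complex.normSq (ξ i) : ℝ) : ℂ) • (1 : M3) := by
      simp only [hBt, smul_add, Finset.sum_add_distrib]
      congr 1
      simp only [smul_ite, smul_zero, Finset.sum_ite_eq, Finset.mem_univ, if_true, smul_smul,
        ← Finset.sum_smul]
      congr 1
      push_cast
      rw [Finset.mul_sum]
      refine Finset.sum_congr rfl fun i _ => ?_
      have h6 : ξ i * star (ξ i) = ((Complex.normSq (ξ i) : ℝ) : ℂ) := Complex.mul_conj _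
      rw [h6]; ring
    rw [e]
    have hs : 0 < ∑ i, Complex.normSq (ξ i) := by
      obtain ⟨i, hi⟩ : ∃ i, ξ i ≠ 0 := by
        by_contra hh
        push Not at hh
        exact hξ (funext hh)
      exact Finset.sum_pos' (fun i _ => Complex.normSq_nonneg _)
        ⟨i, Finset.mem_univ _, Complex.normSq_pos.mpr hi⟩
    refine Matrix.PosDef.posSemidef_add (hB ξ) ?_
    have : (((t * ∑ i, Complex.normSq (ξ i) : ℝ) : ℂ) • (1 : M3)) =
        (t * ∑ i, Complex.normSq (ξ i) : ℝ) • (1 : M3) := by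
      ext a b; simp
    rw [this]
    exact Matrix.PosDef.one.smul (mul_pos ht hs)
  have hcont : Continuous fun t : ℝ => Phi6 (Bt t) := by
    unfold Phi6
    refine continuous_finsetSum _ fun σ _ => continuous_const.mul ?_
    refine continuous_finsetSum _ fun α _ => continuous_finsetSum _ fun ρ _ => ?_
    refine continuous_const.mul (continuous_finsetProd _ fun k _ => ?_)
    simp only [hBt]
    split_ifs
    · simp only [Matrix.add_apply, Matrix.smul_apply]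
      fun_prop
    · simp only [Matrix.add_apply, Matrix.zero_apply]
      fun_prop
  have h0 : Phi6 (Bt 0) = Phi6 B := by
    congr 1
    funext i j
    simp [hBt]
  rw [← h0]
  have ht := (hcont.tendsto 0).mono_left (nhdsWithin_le_nhds (s := Set.Ioi 0))
  refine ge_of_tendsto ht ?_
  filter_upwards [self_mem_nhdsWithin] with t ht0
  exact (hpos t ht0).le


/-- The value on `(v_0, v̄_0, v_1, v̄_1, v_2, v̄_2)` (up to the positive normalisation) of the wedge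
product of three `(1,1)`-forms `θ_s = ∑ θ_s(k,l) dz_k ∧ dz̄_l` restricted to a three-dimensional
space: the coefficient of `dz_0 dz̄_0 dz_1 dz̄_1 dz_2 dz̄_2` in `θ_0 ∧ θ_1 ∧ θ_2`. -/
def wedge3 (θ : Fin 3 → Matrix (Fin 3) (Fin 3) ℂ) : ℂ :=
  ∑ σ : Equiv.Perm (Fin 3), ∑ τ : Equiv.Perm (Fin 3),
    ((Equiv.Perm.sign σ : ℤ) : ℂ) * ((Equiv.Perm.sign τ : ℤ) : ℂ) * ∏ s : Fin 3, θ s (σ s) (τ s)

variable {n r : ℕ}

/-- The endomorphism `Θ(v_k, v̄_l)`. -/
def pull (Θ : Fin n → Fin n → Matrix (Fin r) (Fin r) ℂ) (v : Fin 3 → Fin n → ℂ) (k l : Fin 3) :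
    Matrix (Fin r) (Fin r) ℂ :=
  ∑ i, ∑ j, (v k i * star (v l j)) • Θ i j

/-- The third Chern form `c_3 = ∑_{|I| = 3} det Θ_I` of the curvature tensor `Θ` (without the factor
`(i/2π)^3`), restricted to the span of `v_0,v_1,v_2`. -/
noncomputable def chern3 (Θ : Fin n → Fin n → Matrix (Fin r) (Fin r) ℂ)
    (v : Fin 3 → Fin n → ℂ) : ℂ :=
  (1 / 6) * ∑ a : Fin 3 → Fin r, ∑ ρ : Equiv.Perm (Fin 3), ((Equiv.Perm.sign ρ : ℤ) : ℂ) *
    wedge3 (fun s => Matrix.of fun k l => pull Θ v k l (a s) (a (ρ s)))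

theorem wedge3_eq_T (θ : Fin 3 → M3) : wedge3 θ = T (θ 0) (θ 1) (θ 2) :=
  T_eq_sum θ

/-- `(Fin 3 → Fin r) ≃ Fin r × Fin r × Fin r`. -/
def eqv3 (r : ℕ) : (Fin 3 → Fin r) ≃ Fin r × Fin r × Fin r where
  toFun a := (a 0, a 1, a 2)
  invFun p := ![p.1, p.2.1, p.2.2]
  left_inv a := by
    funext i
    fin_cases i <;> rfl
  right_inv p := rfl

theorem sum_a (f : Fin r → Fin r → Fin r → ℂ) :
    ∑ a : Fin 3 → Fin r, f (a 0) (a 1) (a 2) = ∑ x, ∑ y, ∑ z, f x y z := by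
  rw [Fintype.sum_equiv (eqv3 r) (fun a => f (a 0) (a 1) (a 2)) (fun p => f p.1 p.2.1 p.2.2)
    (fun a => rfl), Fintype.sum_prod_type]
  refine Finset.sum_congr rfl fun x _ => ?_
  rw [Fintype.sum_prod_type]

/-- The polarised third elementary symmetric function (times six). -/
def E3 (A B C : Matrix (Fin r) (Fin r) ℂ) : ℂ :=
  A.trace * B.trace * C.trace - (A * B).trace * C.trace - (A * C).trace * B.trace -
    (B * C).trace * A.trace + (A * B * C).trace + (A * C * B).trace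

theorem E3_eq (M : Fin 3 → Matrix (Fin r) (Fin r) ℂ) :
    ∑ a : Fin 3 → Fin r, ∑ ρ : Equiv.Perm (Fin 3), ((Equiv.Perm.sign ρ : ℤ) : ℂ) *
      ∏ s : Fin 3, M s (a s) (a (ρ s)) = E3 (M 0) (M 1) (M 2) := by
  let f : Fin r → Fin r → Fin r → ℂ := fun x y z =>
    M 0 x x * M 1 y y * M 2 z z - M 0 x y * M 1 y x * M 2 z z -
        M 0 x z * M 1 y y * M 2 z x - M 0 x x * M 1 y z * M 2 z y +
        M 0 x y * M 1 y z * M 2 z x + M 0 x z * M 2 z y * M 1 y x
  have h : ∀ a : Fin 3 → Fin r, ∑ ρ : Equiv.Perm (Fin 3), ((Equiv.Perm.sign ρ : ℤ) : ℂ) *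
      ∏ s : Fin 3, M s (a s) (a (ρ s)) = f (a 0) (a 1) (a 2) := by
    intro a
    rw [sum_perm]
    simp [f, Fin.prod_univ_three, Equiv.swap_apply_def]
    ring
  rw [Finset.sum_congr rfl fun a _ => h a, sum_a f]
  simp only [f]
  simp only [Finset.sum_add_distrib, Finset.sum_sub_distrib]
  unfold E3
  have t1 : ∑ x, ∑ y, ∑ z, M 0 x x * M 1 y y * M 2 z z =
      (M 0).trace * (M 1).trace * (M 2).trace := by
    simp only [Matrix.trace, Matrix.diag_apply]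
    rw [Finset.sum_mul_sum, Finset.sum_mul]
    refine Finset.sum_congr rfl fun x _ => ?_
    rw [Finset.sum_mul]
    exact Finset.sum_congr rfl fun y _ => by rw [Finset.mul_sum]
  have t2 : ∑ x, ∑ y, ∑ z, M 0 x y * M 1 y x * M 2 z z = (M 0 * M 1).trace * (M 2).trace := by
    simp only [Matrix.trace, Matrix.diag_apply, Matrix.mul_apply]
    rw [Finset.sum_mul]
    refine Finset.sum_congr rfl fun x _ => ?_
    rw [Finset.sum_mul]
    exact Finset.sum_congr rfl fun y _ => by rw [Finset.mul_sum]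
  have t3 : ∑ x, ∑ y, ∑ z, M 0 x z * M 1 y y * M 2 z x = (M 0 * M 2).trace * (M 1).trace := by
    simp only [Matrix.trace, Matrix.diag_apply, Matrix.mul_apply]
    rw [Finset.sum_mul]
    refine Finset.sum_congr rfl fun x _ => ?_
    rw [Finset.sum_comm, Finset.sum_mul]
    refine Finset.sum_congr rfl fun z _ => ?_
    rw [Finset.mul_sum]
    exact Finset.sum_congr rfl fun y _ => by ring
  have t4 : ∑ x, ∑ y, ∑ z, M 0 x x * M 1 y z * M 2 z y = (M 1 * M 2).trace * (M 0).trace := by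
    simp only [Matrix.trace, Matrix.diag_apply, Matrix.mul_apply]
    rw [mul_comm, Finset.sum_mul]
    refine Finset.sum_congr rfl fun x _ => ?_
    rw [Finset.mul_sum]
    refine Finset.sum_congr rfl fun y _ => ?_
    rw [Finset.mul_sum]
    exact Finset.sum_congr rfl fun z _ => by ring
  have t5 : ∑ x, ∑ y, ∑ z, M 0 x y * M 1 y z * M 2 z x = (M 0 * M 1 * M 2).trace := by
    simp only [Matrix.trace, Matrix.diag_apply, Matrix.mul_apply, Finset.sum_mul]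
    refine Finset.sum_congr rfl fun x _ => ?_
    rw [Finset.sum_comm]
  have t6 : ∑ x, ∑ y, ∑ z, M 0 x z * M 2 z y * M 1 y x = (M 0 * M 2 * M 1).trace := by
    simp only [Matrix.trace, Matrix.diag_apply, Matrix.mul_apply, Finset.sum_mul]
  rw [t1, t2, t3, t4, t5, t6]

theorem E3_conj (G G' A B C : Matrix (Fin r) (Fin r) ℂ) (hG : G' * G = 1) :
    E3 (G * A * G') (G * B * G') (G * C * G') = E3 A B C := by
  have c1 : ∀ X : Matrix (Fin r) (Fin r) ℂ, (G * X * G').trace = X.trace := by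
    intro X
    rw [Matrix.trace_mul_comm, ← Matrix.mul_assoc, hG, Matrix.one_mul]
  have c2 : ∀ X Y : Matrix (Fin r) (Fin r) ℂ, G * X * G' * (G * Y * G') = G * (X * Y) * G' := by
    intro X Y
    calc G * X * G' * (G * Y * G') = G * X * (G' * G) * Y * G' := by
          simp only [Matrix.mul_assoc]
      _ = G * (X * Y) * G' := by rw [hG]; simp only [Matrix.mul_one, Matrix.mul_assoc]
  unfold E3
  simp only [c2, c1]

theorem chern3_eq (Θ : Fin n → Fin n → Matrix (Fin r) (Fin r) ℂ) (v : Fin 3 → Fin n → ℂ) :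
    chern3 Θ v = (1 / 6) * ∑ σ : Equiv.Perm (Fin 3), ∑ τ : Equiv.Perm (Fin 3),
      ((Equiv.Perm.sign σ : ℤ) : ℂ) * ((Equiv.Perm.sign τ : ℤ) : ℂ) *
      E3 (pull Θ v (σ 0) (τ 0)) (pull Θ v (σ 1) (τ 1)) (pull Θ v (σ 2) (τ 2)) := by
  unfold chern3 wedge3
  congr 1
  have h : ∀ σ τ : Equiv.Perm (Fin 3),
      E3 (pull Θ v (σ 0) (τ 0)) (pull Θ v (σ 1) (τ 1)) (pull Θ v (σ 2) (τ 2)) =
      ∑ a : Fin 3 → Fin r, ∑ ρ : Equiv.Perm (Fin 3), ((Equiv.Perm.sign ρ : ℤ) : ℂ) *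
        ∏ s : Fin 3, pull Θ v (σ s) (τ s) (a s) (a (ρ s)) := fun σ τ =>
    (E3_eq (fun s => pull Θ v (σ s) (τ s))).symm
  simp only [h, Finset.mul_sum, Matrix.of_apply]
  calc ∑ a : Fin 3 → Fin r, ∑ ρ : Equiv.Perm (Fin 3), ∑ σ : Equiv.Perm (Fin 3),
        ∑ τ : Equiv.Perm (Fin 3), ((Equiv.Perm.sign ρ : ℤ) : ℂ) *
        (((Equiv.Perm.sign σ : ℤ) : ℂ) * ((Equiv.Perm.sign τ : ℤ) : ℂ) *
          ∏ s : Fin 3, pull Θ v (σ s) (τ s) (a s) (a (ρ s)))
      = ∑ a : Fin 3 → Fin r, ∑ σ : Equiv.Perm (Fin 3), ∑ ρ : Equiv.Perm (Fin 3),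
        ∑ τ : Equiv.Perm (Fin 3), ((Equiv.Perm.sign ρ : ℤ) : ℂ) *
        (((Equiv.Perm.sign σ : ℤ) : ℂ) * ((Equiv.Perm.sign τ : ℤ) : ℂ) *
          ∏ s : Fin 3, pull Θ v (σ s) (τ s) (a s) (a (ρ s))) :=
        Finset.sum_congr rfl fun a _ => Finset.sum_comm
    _ = ∑ σ : Equiv.Perm (Fin 3), ∑ a : Fin 3 → Fin r, ∑ ρ : Equiv.Perm (Fin 3),
        ∑ τ : Equiv.Perm (Fin 3), ((Equiv.Perm.sign ρ : ℤ) : ℂ) *
        (((Equiv.Perm.sign σ : ℤ) : ℂ) * ((Equiv.Perm.sign τ : ℤ) : ℂ) *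
          ∏ s : Fin 3, pull Θ v (σ s) (τ s) (a s) (a (ρ s))) := Finset.sum_comm
    _ = ∑ σ : Equiv.Perm (Fin 3), ∑ a : Fin 3 → Fin r, ∑ τ : Equiv.Perm (Fin 3),
        ∑ ρ : Equiv.Perm (Fin 3), ((Equiv.Perm.sign ρ : ℤ) : ℂ) *
        (((Equiv.Perm.sign σ : ℤ) : ℂ) * ((Equiv.Perm.sign τ : ℤ) : ℂ) *
          ∏ s : Fin 3, pull Θ v (σ s) (τ s) (a s) (a (ρ s))) :=
        Finset.sum_congr rfl fun σ _ => Finset.sum_congr rfl fun a _ => Finset.sum_comm
    _ = ∑ σ : Equiv.Perm (Fin 3), ∑ τ : Equiv.Perm (Fin 3), ∑ a : Fin 3 → Fin r,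
        ∑ ρ : Equiv.Perm (Fin 3), ((Equiv.Perm.sign ρ : ℤ) : ℂ) *
        (((Equiv.Perm.sign σ : ℤ) : ℂ) * ((Equiv.Perm.sign τ : ℤ) : ℂ) *
          ∏ s : Fin 3, pull Θ v (σ s) (τ s) (a s) (a (ρ s))) :=
        Finset.sum_congr rfl fun σ _ => Finset.sum_comm
    _ = _ := by
        refine Finset.sum_congr rfl fun σ _ => Finset.sum_congr rfl fun τ _ =>
          Finset.sum_congr rfl fun a _ => Finset.sum_congr rfl fun ρ _ => ?_
        ring

theorem chern3_conj (Θ : Fin n → Fin n → Matrix (Fin r) (Fin r) ℂ) (v : Fin 3 → Fin n → ℂ)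
    (G G' : Matrix (Fin r) (Fin r) ℂ) (hG : G' * G = 1) :
    chern3 (fun i j => G * Θ i j * G') v = chern3 Θ v := by
  have hp : ∀ k l, pull (fun i j => G * Θ i j * G') v k l = G * pull Θ v k l * G' := by
    intro k l
    simp [pull, Finset.mul_sum, Finset.sum_mul]
  rw [chern3_eq, chern3_eq]
  simp only [hp, E3_conj G G' _ _ _ hG]

/-- The `a`-th summand of the third Chern form is a double mixed discriminant. -/
theorem term_eq (Θ : Fin n → Fin n → Matrix (Fin r) (Fin r) ℂ) (v : Fin 3 → Fin n → ℂ)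
    (a : Fin 3 → Fin r) :
    ∑ ρ : Equiv.Perm (Fin 3), ((Equiv.Perm.sign ρ : ℤ) : ℂ) *
      wedge3 (fun s => Matrix.of fun k l => pull Θ v k l (a s) (a (ρ s))) =
    Phi6 (fun k l => (pull Θ v k l).submatrix a a) := by
  rw [Phi6_T']
  refine Finset.sum_congr rfl fun ρ _ => ?_
  rw [wedge3_eq_T]
  rfl

/-- `∑ ξ_k conj(ξ_l) Θ(v_k, v̄_l) = Θ(w, w̄)` with `w = ∑ ξ_k v_k`. -/
theorem pull_sum (Θ : Fin n → Fin n → Matrix (Fin r) (Fin r) ℂ) (v : Fin 3 → Fin n → ℂ)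
    (ξ : Fin 3 → ℂ) :
    ∑ k, ∑ l, (ξ k * star (ξ l)) • pull Θ v k l =
      ∑ i, ∑ j, ((∑ k, ξ k * v k i) * star (∑ l, ξ l * v l j)) • Θ i j := by
  simp only [pull, Finset.smul_sum, smul_smul, star_sum, Finset.sum_mul_sum, Finset.sum_smul]
  calc ∑ k, ∑ l, ∑ i, ∑ j, (ξ k * star (ξ l) * (v k i * star (v l j))) • Θ i j
      = ∑ k, ∑ i, ∑ l, ∑ j, (ξ k * star (ξ l) * (v k i * star (v l j))) • Θ i j :=
        Finset.sum_congr rfl fun k _ => Finset.sum_comm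
    _ = ∑ i, ∑ k, ∑ l, ∑ j, (ξ k * star (ξ l) * (v k i * star (v l j))) • Θ i j :=
        Finset.sum_comm
    _ = ∑ i, ∑ k, ∑ j, ∑ l, (ξ k * star (ξ l) * (v k i * star (v l j))) • Θ i j :=
        Finset.sum_congr rfl fun i _ => Finset.sum_congr rfl fun k _ => Finset.sum_comm
    _ = ∑ i, ∑ j, ∑ k, ∑ l, (ξ k * star (ξ l) * (v k i * star (v l j))) • Θ i j :=
        Finset.sum_congr rfl fun i _ => Finset.sum_comm
    _ = _ := by
        refine Finset.sum_congr rfl fun i _ => Finset.sum_congr rfl fun j _ =>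
          Finset.sum_congr rfl fun k _ => Finset.sum_congr rfl fun l _ => ?_
        congr 1
        rw [star_mul']
        ring

section factor

open scoped MatrixOrder Matrix.Norms.L2Operator

theorem exists_factor' {A : Matrix (Fin r) (Fin r) ℂ} (hA : A.PosSemidef) :
    ∃ D : Matrix (Fin r) (Fin r) ℂ, A = Dᴴ * D := by
  obtain ⟨D, hD⟩ := CStarAlgebra.nonneg_iff_eq_star_mul_self.mp hA.nonneg
  exact ⟨D, hD⟩

end factor

/-- `Θ(ξ, ξ̄)`. -/
def ev (Θ : Fin n → Fin n → Matrix (Fin r) (Fin r) ℂ) (ξ : Fin n → ℂ) :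
    Matrix (Fin r) (Fin r) ℂ :=
  ∑ i, ∑ j, (ξ i * star (ξ j)) • Θ i j

/-- Griffiths positivity of the curvature tensor `Θ` with respect to the Hermitian metric `h` on the
fibre: `⟨Θ(ξ, ξ̄) u, u⟩_h > 0` for all `ξ ≠ 0`, `u ≠ 0` (and `Θ(ξ, ξ̄)` is `h`-self-adjoint). -/
def GriffithsPos (h : Matrix (Fin r) (Fin r) ℂ) (Θ : Fin n → Fin n → Matrix (Fin r) (Fin r) ℂ) :
    Prop :=
  ∀ ξ : Fin n → ℂ, ξ ≠ 0 → (h * ev Θ ξ).PosDef

/-- Griffiths semipositivity. -/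
def GriffithsSemipos (h : Matrix (Fin r) (Fin r) ℂ)
    (Θ : Fin n → Fin n → Matrix (Fin r) (Fin r) ℂ) : Prop :=
  ∀ ξ : Fin n → ℂ, (h * ev Θ ξ).PosSemidef

theorem ev_zero (Θ : Fin n → Fin n → Matrix (Fin r) (Fin r) ℂ) : ev Θ 0 = 0 := by
  simp [ev]

theorem GriffithsPos.semipos {h : Matrix (Fin r) (Fin r) ℂ}
    {Θ : Fin n → Fin n → Matrix (Fin r) (Fin r) ℂ} (hΘ : GriffithsPos h Θ) :
    GriffithsSemipos h Θ := by
  intro ξ
  by_cases hξ : ξ = 0
  · rw [hξ, ev_zero, Matrix.mul_zero]; exact Matrix.PosSemidef.zero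
  · exact (hΘ ξ hξ).posSemidef

theorem ev_conj (Θ : Fin n → Fin n → Matrix (Fin r) (Fin r) ℂ)
    (G G' : Matrix (Fin r) (Fin r) ℂ) (ξ : Fin n → ℂ) :
    ev (fun i j => G * Θ i j * G') ξ = G * ev Θ ξ * G' := by
  simp [ev, Finset.mul_sum, Finset.sum_mul]

theorem chern3_nonneg_aux (Θ : Fin n → Fin n → Matrix (Fin r) (Fin r) ℂ)
    (hΘ : ∀ ξ, (ev Θ ξ).PosSemidef) (v : Fin 3 → Fin n → ℂ) (a : Fin 3 → Fin r) :
    0 ≤ Phi6 (fun k l => (pull Θ v k l).submatrix a a) := by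
  apply core_nonneg
  intro ξ
  have e : ∑ k, ∑ l, (ξ k * star (ξ l)) • (pull Θ v k l).submatrix a a =
      (∑ k, ∑ l, (ξ k * star (ξ l)) • pull Θ v k l).submatrix a a := by
    ext x y
    simp [Matrix.sum_apply]
  rw [e, pull_sum]
  exact (hΘ (fun i => ∑ k, ξ k * v k i)).submatrix a

theorem chern3_pos_aux (Θ : Fin n → Fin n → Matrix (Fin r) (Fin r) ℂ)
    (hΘ : ∀ ξ, ξ ≠ 0 → (ev Θ ξ).PosDef) (v : Fin 3 → Fin n → ℂ) (hv : LinearIndependent ℂ v)
    (a : Fin 3 → Fin r) (ha : Function.Injective a) :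
    0 < Phi6 (fun k l => (pull Θ v k l).submatrix a a) := by
  apply core_pos
  intro ξ hξ
  have e : ∑ k, ∑ l, (ξ k * star (ξ l)) • (pull Θ v k l).submatrix a a =
      (∑ k, ∑ l, (ξ k * star (ξ l)) • pull Θ v k l).submatrix a a := by
    ext x y
    simp [Matrix.sum_apply]
  rw [e, pull_sum]
  refine (hΘ (fun i => ∑ k, ξ k * v k i) ?_).submatrix ha
  intro h0
  apply hξ
  have h1 : ∑ k, ξ k • v k = 0 := by
    funext i
    have := congrFun h0 i
    simpa [Finset.sum_apply] using this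
  exact funext (Fintype.linearIndependent_iff.mp hv ξ h1)

theorem sixth_pos : (0 : ℂ) < 1 / 6 := by
  have : ((1 : ℂ) / 6) = (((1 : ℝ) / 6 : ℝ) : ℂ) := by push_cast; rfl
  rw [this]
  exact_mod_cast (by norm_num : (0 : ℝ) < 1 / 6)

/-- **`c_3` of a Griffiths semipositive curvature tensor is nonnegative**, in every rank and on
every triple of tangent vectors. -/
theorem chern3_nonneg (h : Matrix (Fin r) (Fin r) ℂ) (hh : h.PosDef)
    (Θ : Fin n → Fin n → Matrix (Fin r) (Fin r) ℂ) (hΘ : GriffithsSemipos h Θ)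
    (v : Fin 3 → Fin n → ℂ) : 0 ≤ chern3 Θ v := by
  obtain ⟨G, hG⟩ := exists_factor' hh.posSemidef
  have hGd : IsUnit G.det := by
    rw [isUnit_iff_ne_zero]
    intro h0
    have h1 := hh.det_pos
    rw [hG, Matrix.det_mul, h0, mul_zero] at h1
    exact lt_irrefl _ h1
  have hGG : G⁻¹ * G = 1 := Matrix.nonsing_inv_mul _ hGd
  have hGG' : G * G⁻¹ = 1 := Matrix.mul_nonsing_inv _ hGd
  rw [← chern3_conj Θ v G G⁻¹ hGG]
  have hΘ' : ∀ ξ, (ev (fun i j => G * Θ i j * G⁻¹) ξ).PosSemidef := by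
    intro ξ
    rw [ev_conj]
    have e : G * ev Θ ξ * G⁻¹ = (G⁻¹)ᴴ * (h * ev Θ ξ) * G⁻¹ := by
      rw [hG]
      have : (G⁻¹)ᴴ * Gᴴ = 1 := by rw [← Matrix.conjTranspose_mul, hGG', Matrix.conjTranspose_one]
      calc G * ev Θ ξ * G⁻¹ = ((G⁻¹)ᴴ * Gᴴ) * (G * ev Θ ξ * G⁻¹) := by rw [this, Matrix.one_mul]
        _ = _ := by simp only [Matrix.mul_assoc]
    rw [e]
    exact (hΘ ξ).conjTranspose_mul_mul_same _
  unfold chern3
  refine mul_nonneg sixth_pos.le (Finset.sum_nonneg fun a _ => ?_)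
  rw [term_eq]
  exact chern3_nonneg_aux _ hΘ' v a

/-- **`c_3` of a Griffiths positive curvature tensor of rank `≥ 3` is positive**: its restriction to
every three-dimensional complex subspace is a strictly positive multiple of the volume form. -/
theorem chern3_pos (hr : 3 ≤ r) (h : Matrix (Fin r) (Fin r) ℂ) (hh : h.PosDef)
    (Θ : Fin n → Fin n → Matrix (Fin r) (Fin r) ℂ) (hΘ : GriffithsPos h Θ)
    (v : Fin 3 → Fin n → ℂ) (hv : LinearIndependent ℂ v) : 0 < chern3 Θ v := by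
  obtain ⟨G, hG⟩ := exists_factor' hh.posSemidef
  have hGd : IsUnit G.det := by
    rw [isUnit_iff_ne_zero]
    intro h0
    have h1 := hh.det_pos
    rw [hG, Matrix.det_mul, h0, mul_zero] at h1
    exact lt_irrefl _ h1
  have hGG : G⁻¹ * G = 1 := Matrix.nonsing_inv_mul _ hGd
  have hGG' : G * G⁻¹ = 1 := Matrix.mul_nonsing_inv _ hGd
  have hGu : IsUnit G⁻¹ := by
    rw [Matrix.isUnit_iff_isUnit_det]
    exact Matrix.isUnit_nonsing_inv_det _ hGd
  rw [← chern3_conj Θ v G G⁻¹ hGG]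
  have hΘ' : ∀ ξ, ξ ≠ 0 → (ev (fun i j => G * Θ i j * G⁻¹) ξ).PosDef := by
    intro ξ hξ
    rw [ev_conj]
    have e : G * ev Θ ξ * G⁻¹ = (G⁻¹)ᴴ * (h * ev Θ ξ) * G⁻¹ := by
      rw [hG]
      have : (G⁻¹)ᴴ * Gᴴ = 1 := by rw [← Matrix.conjTranspose_mul, hGG', Matrix.conjTranspose_one]
      calc G * ev Θ ξ * G⁻¹ = ((G⁻¹)ᴴ * Gᴴ) * (G * ev Θ ξ * G⁻¹) := by rw [this, Matrix.one_mul]
        _ = _ := by simp only [Matrix.mul_assoc]
    rw [e]
    exact (hΘ ξ hξ).conjTranspose_mul_mul_same (Matrix.mulVec_injective_of_isUnit hGu)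
  have hΘ'' : ∀ ξ, (ev (fun i j => G * Θ i j * G⁻¹) ξ).PosSemidef := by
    intro ξ
    by_cases hξ : ξ = 0
    · rw [hξ, ev_zero]; exact Matrix.PosSemidef.zero
    · exact (hΘ' ξ hξ).posSemidef
  unfold chern3
  refine mul_pos sixth_pos ?_
  refine Finset.sum_pos' (fun a _ => ?_) ⟨Fin.castLE hr, Finset.mem_univ _, ?_⟩
  · rw [term_eq]
    exact chern3_nonneg_aux _ hΘ'' v a
  · rw [term_eq]
    exact chern3_pos_aux _ hΘ' v hv _ (Fin.castLE_injective hr)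

end H864R3
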