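import Pool.Agent.H864R3.Design

set_option autoImplicit false

namespace H864R3

open Matrix Finset
open scoped ComplexOrder

/-- The vectors of the design as complex vectors. -/
noncomputable def x (s : Fin 31) (i : Fin 3) : ℂ := GaussianInt.toComplex (X s i)

theorem momentC (i k m j l n : Fin 3) :
    (∑ s : Fin 31, ((W s : ℤ) : ℂ) * (x s i * x s k * x s m * (star (x s j) * star (x s l) *
      star (x s n)))) = ((16 * perm3 i k m j l n : ℤ) : ℂ) := by
  have h := congrArg GaussianInt.toComplex (moment i k m j l n)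
  simp only [map_sum, map_mul, map_intCast, map_star, GaussianInt.toComplex_star] at h
  simpa [x] using h

/-- The value of the Hermitian (sesquilinear) form `p` on the vector `x s`. -/
noncomputable def Rf (p : Fin 3 × Fin 3 → ℂ) (s : Fin 31) : ℂ :=
  ∑ a : Fin 3 × Fin 3, x s a.1 * star (x s a.2) * p a

theorem M_eq1 (p q r : Fin 3 × Fin 3 → ℂ) :
    ∑ s, ((W s : ℤ) : ℂ) * (Rf p s * Rf q s * Rf r s) =
      ∑ a : Fin 3 × Fin 3, ∑ b : Fin 3 × Fin 3, ∑ c : Fin 3 × Fin 3,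
        (p a * q b * r c) * ((16 * perm3 a.1 b.1 c.1 a.2 b.2 c.2 : ℤ) : ℂ) := by
  simp only [← momentC, Finset.mul_sum]
  simp only [Rf]
  have : ∀ s, ((W s : ℤ) : ℂ) * ((∑ a : Fin 3 × Fin 3, x s a.1 * star (x s a.2) * p a) *
      (∑ a : Fin 3 × Fin 3, x s a.1 * star (x s a.2) * q a) *
      (∑ a : Fin 3 × Fin 3, x s a.1 * star (x s a.2) * r a)) =
      ∑ a : Fin 3 × Fin 3, ∑ b : Fin 3 × Fin 3, ∑ c : Fin 3 × Fin 3,
        (p a * q b * r c) * (((W s : ℤ) : ℂ) * (x s a.1 * x s b.1 * x s c.1 *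
          (star (x s a.2) * star (x s b.2) * star (x s c.2)))) := by
    intro s
    rw [Finset.sum_mul_sum, Finset.sum_mul, Finset.mul_sum]
    refine Finset.sum_congr rfl fun a _ => ?_
    rw [Finset.sum_mul, Finset.mul_sum]
    refine Finset.sum_congr rfl fun b _ => ?_
    rw [Finset.mul_sum, Finset.mul_sum]
    refine Finset.sum_congr rfl fun c _ => ?_
    ring
  rw [Finset.sum_congr rfl fun s _ => this s]
  rw [Finset.sum_comm]
  refine Finset.sum_congr rfl fun a _ => ?_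
  rw [Finset.sum_comm]
  refine Finset.sum_congr rfl fun b _ => ?_
  rw [Finset.sum_comm]


/-- Polarised moment functional. -/
def six (p q r : Fin 3 × Fin 3 → ℂ) : ℂ :=
  ∑ i : Fin 3, ∑ k : Fin 3, ∑ m : Fin 3,
    (p (i, i) * q (k, k) * r (m, m) + p (i, i) * q (k, m) * r (m, k) +
      p (i, k) * q (k, i) * r (m, m) + p (i, k) * q (k, m) * r (m, i) +
      p (i, m) * q (k, i) * r (m, k) + p (i, m) * q (k, k) * r (m, i))

theorem six_aux (p q r : Fin 3 × Fin 3 → ℂ) (i k m : Fin 3) :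
    ∑ j : Fin 3, ∑ l : Fin 3, ∑ n : Fin 3,
        (p (i, j) * q (k, l) * r (m, n)) * ((16 * perm3 i k m j l n : ℤ) : ℂ) =
      16 * (p (i, i) * q (k, k) * r (m, m) + p (i, i) * q (k, m) * r (m, k) +
      p (i, k) * q (k, i) * r (m, m) + p (i, k) * q (k, m) * r (m, i) +
      p (i, m) * q (k, i) * r (m, k) + p (i, m) * q (k, k) * r (m, i)) := by
  fin_cases i <;> fin_cases k <;> fin_cases m <;>
  · simp [Fin.sum_univ_three, perm3, ind]
    try ring

theorem M_eq2 (p q r : Fin 3 × Fin 3 → ℂ) :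
    ∑ a : Fin 3 × Fin 3, ∑ b : Fin 3 × Fin 3, ∑ c : Fin 3 × Fin 3,
        (p a * q b * r c) * ((16 * perm3 a.1 b.1 c.1 a.2 b.2 c.2 : ℤ) : ℂ) = 16 * six p q r := by
  unfold six
  rw [Fintype.sum_prod_type, Finset.mul_sum]
  refine Finset.sum_congr rfl fun i _ => ?_
  have h1 : ∀ j : Fin 3, ∑ b : Fin 3 × Fin 3, ∑ c : Fin 3 × Fin 3,
        (p (i, j) * q b * r c) * ((16 * perm3 i b.1 c.1 j b.2 c.2 : ℤ) : ℂ) =
      ∑ k : Fin 3, ∑ m : Fin 3, ∑ l : Fin 3, ∑ n : Fin 3,
        (p (i, j) * q (k, l) * r (m, n)) * ((16 * perm3 i k m j l n : ℤ) : ℂ) := by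
    intro j
    rw [Fintype.sum_prod_type]
    refine Finset.sum_congr rfl fun k _ => ?_
    rw [Finset.sum_congr rfl fun l _ => Fintype.sum_prod_type _]
    rw [Finset.sum_comm]
  rw [Finset.sum_congr rfl fun j _ => h1 j, Finset.sum_comm, Finset.mul_sum]
  refine Finset.sum_congr rfl fun k _ => ?_
  rw [Finset.sum_comm, Finset.mul_sum]
  exact Finset.sum_congr rfl fun m _ => six_aux p q r i k m

theorem M_eq (p q r : Fin 3 × Fin 3 → ℂ) :
    ∑ s, ((W s : ℤ) : ℂ) * (Rf p s * Rf q s * Rf r s) = 16 * six p q r :=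
  (M_eq1 p q r).trans (M_eq2 p q r)

/-- The identity form. -/
def idf : Fin 3 × Fin 3 → ℂ := fun a => if a.1 = a.2 then 1 else 0

/-- The trace. -/
def trf (p : Fin 3 × Fin 3 → ℂ) : ℂ := p (0, 0) + p (1, 1) + p (2, 2)

/-- The polarised determinant (mixed discriminant, times `6`). -/
def DV (p q r : Fin 3 × Fin 3 → ℂ) : ℂ :=
  ∑ σ : Equiv.Perm (Fin 3), ∑ τ : Equiv.Perm (Fin 3), ((Equiv.Perm.sign σ : ℤ) : ℂ) *
    (p (τ 0, σ (τ 0)) * q (τ 1, σ (τ 1)) * r (τ 2, σ (τ 2)))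

theorem perm_univ : (Finset.univ : Finset (Equiv.Perm (Fin 3))) =
    {1, Equiv.swap 0 1, Equiv.swap 0 2, Equiv.swap 1 2, Equiv.swap 0 1 * Equiv.swap 1 2,
      Equiv.swap 1 2 * Equiv.swap 0 1} := by
  decide +kernel

theorem sum_perm (f : Equiv.Perm (Fin 3) → ℂ) :
    ∑ σ, f σ = f 1 + f (Equiv.swap 0 1) + f (Equiv.swap 0 2) + f (Equiv.swap 1 2) +
      f (Equiv.swap 0 1 * Equiv.swap 1 2) + f (Equiv.swap 1 2 * Equiv.swap 0 1) := by
  rw [perm_univ]
  rw [Finset.sum_insert, Finset.sum_insert, Finset.sum_insert, Finset.sum_insert,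
    Finset.sum_insert, Finset.sum_singleton]
  · ring
  all_goals decide +kernel

theorem main_identity (p q r : Fin 3 × Fin 3 → ℂ) :
    160 * DV p q r =
      ∑ s, ((W s : ℤ) : ℂ) * (10 * (Rf p s * Rf q s * Rf r s) -
        4 * (trf p * (Rf idf s * Rf q s * Rf r s) + trf q * (Rf p s * Rf idf s * Rf r s) +
          trf r * (Rf p s * Rf q s * Rf idf s)) +
        trf p * trf q * trf r * (Rf idf s * Rf idf s * Rf idf s)) := by
  have h : ∑ s, ((W s : ℤ) : ℂ) * (10 * (Rf p s * Rf q s * Rf r s) -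
        4 * (trf p * (Rf idf s * Rf q s * Rf r s) + trf q * (Rf p s * Rf idf s * Rf r s) +
          trf r * (Rf p s * Rf q s * Rf idf s)) +
        trf p * trf q * trf r * (Rf idf s * Rf idf s * Rf idf s)) =
      10 * (16 * six p q r) - 4 * (trf p * (16 * six idf q r) + trf q * (16 * six p idf r) +
        trf r * (16 * six p q idf)) + trf p * trf q * trf r * (16 * six idf idf idf) := by
    simp only [← M_eq, Finset.mul_sum]
    simp only [← Finset.sum_add_distrib, ← Finset.sum_sub_distrib, Finset.mul_sum]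
    refine Finset.sum_congr rfl fun s _ => ?_
    ring
  rw [h]
  unfold DV
  simp only [sum_perm]
  simp [six, trf, idf, Fin.sum_univ_three, Equiv.swap_apply_def]
  ring

end H864R3
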