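import Mathlib

set_option autoImplicit false

namespace H864R3

open Finset

/-- Nine Gaussian integers. -/
def Z9 : Fin 9 → GaussianInt :=
  ![⟨0, 0⟩, ⟨1, 0⟩, ⟨0, 1⟩, ⟨-1, 0⟩, ⟨0, -1⟩, ⟨2, 0⟩, ⟨0, 2⟩, ⟨-2, 0⟩, ⟨0, -2⟩]

/-- Their weights (total mass `48`). -/
def W9 : Fin 9 → ℤ := ![12, 8, 8, 8, 8, 1, 1, 1, 1]

/-- The weighted points have the moments of a standard complex Gaussian up to order `(3,3)`. -/
theorem mom9 : ∀ j k : Fin 4, (∑ e : Fin 9, ((W9 e : ℤ) : GaussianInt) *
    ((star (Z9 e)) ^ (j : ℕ) * (Z9 e) ^ (k : ℕ))) =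
      ((if j = k then 48 * (Nat.factorial j : ℤ) else 0 : ℤ) : GaussianInt) := by
  decide +kernel

/-- The points as complex numbers. -/
noncomputable def z9 (e : Fin 9) : ℂ := GaussianInt.toComplex (Z9 e)

/-- The weights as complex numbers, normalised. -/
noncomputable def w9 (e : Fin 9) : ℂ := ((W9 e : ℤ) : ℂ) / 48

theorem mom9C (j k : ℕ) (hj : j ≤ 3) (hk : k ≤ 3) :
    ∑ e : Fin 9, w9 e * (star (z9 e) ^ j * z9 e ^ k) =
      if j = k then (Nat.factorial j : ℂ) else 0 := by
  have h := congrArg GaussianInt.toComplex (mom9 ⟨j, by omega⟩ ⟨k, by omega⟩)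
  simp only [map_sum, map_mul, map_pow, map_intCast, GaussianInt.toComplex_star] at h
  have h2 : ∑ e : Fin 9, w9 e * (star (z9 e) ^ j * z9 e ^ k) =
      (∑ e : Fin 9, ((W9 e : ℤ) : ℂ) * (star (z9 e) ^ j * z9 e ^ k)) / 48 := by
    rw [Finset.sum_div]
    refine Finset.sum_congr rfl fun e _ => ?_
    unfold w9
    ring
  rw [h2]
  have h3 : ∑ e : Fin 9, ((W9 e : ℤ) : ℂ) * (star (z9 e) ^ j * z9 e ^ k) =
      ((if (⟨j, by omega⟩ : Fin 4) = ⟨k, by omega⟩ then 48 * (Nat.factorial j : ℤ) else 0 : ℤ) : ℂ) := by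
    rw [← h]
    rfl
  rw [h3]
  by_cases hjk : j = k
  · subst hjk
    simp
  · simp [hjk]

variable {m r : ℕ}

/-- The number of indices `s` with `a s = c`. -/
def mult (a : Fin m → Fin r) (c : Fin r) : ℕ := Fintype.card {s // a s = c}

theorem mult_le (a : Fin m → Fin r) (c : Fin r) : mult a c ≤ m := by
  have := Fintype.card_subtype_le (fun s => a s = c)
  simpa [mult] using this

theorem prod_fib (a : Fin m → Fin r) (g : Fin r → ℂ) :
    ∏ s, g (a s) = ∏ c, g c ^ mult a c := by
  have h := Finset.prod_fiberwise_of_maps_to (s := (Finset.univ : Finset (Fin m)))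
    (t := (Finset.univ : Finset (Fin r))) (g := a) (fun _ _ => Finset.mem_univ _)
    (fun s => g (a s))
  rw [← h]
  refine Finset.prod_congr rfl fun c _ => ?_
  have : ∏ s ∈ Finset.univ.filter (fun s => a s = c), g (a s) =
      ∏ s ∈ Finset.univ.filter (fun s => a s = c), g c :=
    Finset.prod_congr rfl fun s hs => by rw [(Finset.mem_filter.mp hs).2]
  rw [this, Finset.prod_const]
  congr 1
  simp [mult, Fintype.card_subtype]

/-- The product weights. -/
noncomputable def wt (f : Fin r → Fin 9) : ℂ := ∏ c, w9 (f c)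

theorem wick_aux (a b : Fin m → Fin r) (hm : m ≤ 3) :
    ∑ f : Fin r → Fin 9, wt f * ∏ s, (star (z9 (f (a s))) * z9 (f (b s))) =
      ∏ c, (if mult a c = mult b c then (Nat.factorial (mult a c) : ℂ) else 0) := by
  have h1 : ∀ f : Fin r → Fin 9, wt f * ∏ s, (star (z9 (f (a s))) * z9 (f (b s))) =
      ∏ c, (w9 (f c) * (star (z9 (f c)) ^ mult a c * z9 (f c) ^ mult b c)) := by
    intro f
    rw [Finset.prod_mul_distrib, prod_fib a (fun c => star (z9 (f c))),
      prod_fib b (fun c => z9 (f c)), wt, ← Finset.prod_mul_distrib, ← Finset.prod_mul_distrib]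
  rw [Finset.sum_congr rfl fun f _ => h1 f]
  have h2 := Finset.prod_univ_sum (fun _ : Fin r => (Finset.univ : Finset (Fin 9)))
    (fun c e => w9 e * (star (z9 e) ^ mult a c * z9 e ^ mult b c))
  rw [Fintype.piFinset_univ] at h2
  rw [← h2]
  refine Finset.prod_congr rfl fun c _ => ?_
  exact mom9C _ _ ((mult_le a c).trans hm) ((mult_le b c).trans hm)

theorem comb_aux (a b : Fin m → Fin r) :
    ∏ c, (if mult a c = mult b c then (Nat.factorial (mult a c) : ℂ) else 0) =
      ∑ ρ : Equiv.Perm (Fin m), if a ∘ ρ = b then 1 else 0 := by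
  classical
  by_cases h : ∃ ρ0 : Equiv.Perm (Fin m), a ∘ ρ0 = b
  · obtain ⟨ρ0, h0⟩ := h
    have hm : ∀ c, mult a c = mult b c := by
      intro c
      unfold mult
      refine (Fintype.card_congr (Equiv.subtypeEquiv ρ0 fun s => ?_)).symm
      rw [← h0]
      rfl
    simp only [hm, if_true]
    have h2 := DomMulAct.stabilizer_card (f := a)
    have h3 : ∑ ρ : Equiv.Perm (Fin m), (if a ∘ ρ = b then (1 : ℂ) else 0) =
        ∑ g : Equiv.Perm (Fin m), (if a ∘ g = a then (1 : ℂ) else 0) := by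
      refine Fintype.sum_equiv (Equiv.mulRight ρ0⁻¹) _ _ fun ρ => ?_
      have : (a ∘ ρ = b) ↔ (a ∘ ⇑(ρ * ρ0⁻¹) = a) := by
        rw [← h0]
        constructor
        · intro h
          funext s
          have := congrFun h (ρ0⁻¹ s)
          simpa using this
        · intro h
          funext s
          have := congrFun h (ρ0 s)
          simpa using this
      simp only [Equiv.coe_mulRight]
      exact if_congr this rfl rfl
    rw [h3, Finset.sum_boole]
    rw [Fintype.card_subtype] at h2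
    rw [h2]
    push_cast
    refine Finset.prod_congr rfl fun c _ => ?_
    rw [← hm c]
    rfl
  · have h0 : ∀ ρ : Equiv.Perm (Fin m), ¬ (a ∘ ρ = b) := fun ρ hρ => h ⟨ρ, hρ⟩
    rw [Finset.sum_congr rfl fun ρ _ => if_neg (h0 ρ), Finset.sum_const_zero]
    have hne : ∃ c, mult a c ≠ mult b c := by
      by_contra hall
      push Not at hall
      apply h
      let ee : ∀ c, {s // b s = c} ≃ {s // a s = c} := fun c =>
        Fintype.equivOfCardEq (hall c).symm
      refine ⟨(Equiv.sigmaFiberEquiv b).symm.trans ((Equiv.sigmaCongrRight ee).trans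
        (Equiv.sigmaFiberEquiv a)), ?_⟩
      funext s
      simp only [Function.comp_apply, Equiv.trans_apply, Equiv.sigmaFiberEquiv,
        Equiv.coe_fn_symm_mk, Equiv.sigmaCongrRight_apply, Sigma.map, Equiv.coe_fn_mk, id]
      exact (ee (b s) ⟨s, rfl⟩).2
    obtain ⟨c, hc⟩ := hne
    exact Finset.prod_eq_zero (Finset.mem_univ c) (if_neg hc)

/-- Wick's formula. -/
theorem wick (a b : Fin m → Fin r) (hm : m ≤ 3) :
    ∑ f : Fin r → Fin 9, wt f * ∏ s, (star (z9 (f (a s))) * z9 (f (b s))) =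
      ∑ ρ : Equiv.Perm (Fin m), if a ∘ ρ = b then 1 else 0 :=
  (wick_aux a b hm).trans (comb_aux a b)

end H864R3
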