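import Pool.Agent.H864R3.Chern3
import Pool.Agent.H864R3.Wick

set_option autoImplicit false

namespace H864R3

open Matrix Finset
open scoped ComplexOrder

variable {n r : ℕ}

/-- `∑_a θ_{a_0 a_{ρ0}} ∧ θ_{a_1 a_{ρ1}} ∧ θ_{a_2 a_{ρ2}}`, the sum over all `a : Fin 3 → Fin r`. -/
def pform (Θ : Fin n → Fin n → Matrix (Fin r) (Fin r) ℂ) (v : Fin 3 → Fin n → ℂ)
    (ρ : Equiv.Perm (Fin 3)) : ℂ :=
  ∑ a : Fin 3 → Fin r, wedge3 (fun s => Matrix.of fun k l => pull Θ v k l (a s) (a (ρ s)))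

/-- `θ_{a_0 b_0} ∧ θ_{a_1 b_1} ∧ θ_{a_2 b_2}`. -/
def Tt (Θ : Fin n → Fin n → Matrix (Fin r) (Fin r) ℂ) (v : Fin 3 → Fin n → ℂ)
    (a b : Fin 3 → Fin r) : ℂ :=
  wedge3 (fun s => Matrix.of fun k l => pull Θ v k l (a s) (b s))

/-- The `(1,1)`-form `x^* Θ y`. -/
def sq (Θ : Fin n → Fin n → Matrix (Fin r) (Fin r) ℂ) (v : Fin 3 → Fin n → ℂ)
    (x y : Fin r → ℂ) : M3 :=
  Matrix.of fun k l => ∑ α, ∑ β, star (x α) * y β * pull Θ v k l α β

theorem wedge3_expand (Θ : Fin n → Fin n → Matrix (Fin r) (Fin r) ℂ) (v : Fin 3 → Fin n → ℂ)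
    (x y : Fin 3 → Fin r → ℂ) :
    wedge3 (fun s => sq Θ v (x s) (y s)) =
      ∑ a : Fin 3 → Fin r, ∑ b : Fin 3 → Fin r,
        (∏ s, (star (x s (a s)) * y s (b s))) * Tt Θ v a b := by
  have h1 : ∀ σ τ : Equiv.Perm (Fin 3), ∏ s, sq Θ v (x s) (y s) (σ s) (τ s) =
      ∑ a : Fin 3 → Fin r, ∑ b : Fin 3 → Fin r,
        (∏ s, (star (x s (a s)) * y s (b s))) * ∏ s, pull Θ v (σ s) (τ s) (a s) (b s) := by
    intro σ τ
    simp only [sq, Matrix.of_apply]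
    have h2 := Finset.prod_univ_sum (fun _ : Fin 3 => (Finset.univ : Finset (Fin r)))
      (fun s α => ∑ β, star (x s α) * y s β * pull Θ v (σ s) (τ s) α β)
    rw [Fintype.piFinset_univ] at h2
    rw [h2]
    refine Finset.sum_congr rfl fun a _ => ?_
    have h3 := Finset.prod_univ_sum (fun _ : Fin 3 => (Finset.univ : Finset (Fin r)))
      (fun s β => star (x s (a s)) * y s β * pull Θ v (σ s) (τ s) (a s) β)
    rw [Fintype.piFinset_univ] at h3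
    rw [h3]
    refine Finset.sum_congr rfl fun b _ => ?_
    rw [← Finset.prod_mul_distrib]
  unfold wedge3
  simp only [h1, Tt, wedge3, Finset.mul_sum, Matrix.of_apply]
  calc ∑ σ : Equiv.Perm (Fin 3), ∑ τ : Equiv.Perm (Fin 3), ∑ a : Fin 3 → Fin r,
        ∑ b : Fin 3 → Fin r, ((Equiv.Perm.sign σ : ℤ) : ℂ) * ((Equiv.Perm.sign τ : ℤ) : ℂ) *
          ((∏ s, (star (x s (a s)) * y s (b s))) * ∏ s, pull Θ v (σ s) (τ s) (a s) (b s))
      = ∑ σ : Equiv.Perm (Fin 3), ∑ a : Fin 3 → Fin r, ∑ τ : Equiv.Perm (Fin 3),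
        ∑ b : Fin 3 → Fin r, ((Equiv.Perm.sign σ : ℤ) : ℂ) * ((Equiv.Perm.sign τ : ℤ) : ℂ) *
          ((∏ s, (star (x s (a s)) * y s (b s))) * ∏ s, pull Θ v (σ s) (τ s) (a s) (b s)) :=
        Finset.sum_congr rfl fun σ _ => Finset.sum_comm
    _ = ∑ a : Fin 3 → Fin r, ∑ σ : Equiv.Perm (Fin 3), ∑ τ : Equiv.Perm (Fin 3),
        ∑ b : Fin 3 → Fin r, ((Equiv.Perm.sign σ : ℤ) : ℂ) * ((Equiv.Perm.sign τ : ℤ) : ℂ) *
          ((∏ s, (star (x s (a s)) * y s (b s))) * ∏ s, pull Θ v (σ s) (τ s) (a s) (b s)) :=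
        Finset.sum_comm
    _ = ∑ a : Fin 3 → Fin r, ∑ σ : Equiv.Perm (Fin 3), ∑ b : Fin 3 → Fin r,
        ∑ τ : Equiv.Perm (Fin 3), ((Equiv.Perm.sign σ : ℤ) : ℂ) * ((Equiv.Perm.sign τ : ℤ) : ℂ) *
          ((∏ s, (star (x s (a s)) * y s (b s))) * ∏ s, pull Θ v (σ s) (τ s) (a s) (b s)) :=
        Finset.sum_congr rfl fun a _ => Finset.sum_congr rfl fun σ _ => Finset.sum_comm
    _ = ∑ a : Fin 3 → Fin r, ∑ b : Fin 3 → Fin r, ∑ σ : Equiv.Perm (Fin 3),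
        ∑ τ : Equiv.Perm (Fin 3), ((Equiv.Perm.sign σ : ℤ) : ℂ) * ((Equiv.Perm.sign τ : ℤ) : ℂ) *
          ((∏ s, (star (x s (a s)) * y s (b s))) * ∏ s, pull Θ v (σ s) (τ s) (a s) (b s)) :=
        Finset.sum_congr rfl fun a _ => Finset.sum_comm
    _ = _ := by
        refine Finset.sum_congr rfl fun a _ => Finset.sum_congr rfl fun b _ =>
          Finset.sum_congr rfl fun σ _ => Finset.sum_congr rfl fun τ _ => ?_
        ring

/-- The random vector. -/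
noncomputable def rv (f : Fin r → Fin 9) : Fin r → ℂ := fun c => z9 (f c)

theorem segre_avg (Θ : Fin n → Fin n → Matrix (Fin r) (Fin r) ℂ) (v : Fin 3 → Fin n → ℂ) :
    ∑ ρ : Equiv.Perm (Fin 3), pform Θ v ρ =
      ∑ f : Fin r → Fin 9, wt f * wedge3 (fun _ => sq Θ v (rv f) (rv f)) := by
  have h1 : ∀ f : Fin r → Fin 9, wt f * wedge3 (fun _ => sq Θ v (rv f) (rv f)) =
      ∑ a : Fin 3 → Fin r, ∑ b : Fin 3 → Fin r,
        (wt f * ∏ s, (star (z9 (f (a s))) * z9 (f (b s)))) * Tt Θ v a b := by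
    intro f
    rw [wedge3_expand Θ v (fun _ => rv f) (fun _ => rv f), Finset.mul_sum]
    refine Finset.sum_congr rfl fun a _ => ?_
    rw [Finset.mul_sum]
    refine Finset.sum_congr rfl fun b _ => ?_
    simp only [rv]
    ring
  rw [Finset.sum_congr rfl fun f _ => h1 f, Finset.sum_comm]
  have h2 : ∀ a : Fin 3 → Fin r, ∑ f : Fin r → Fin 9, ∑ b : Fin 3 → Fin r,
      (wt f * ∏ s, (star (z9 (f (a s))) * z9 (f (b s)))) * Tt Θ v a b =
      ∑ ρ : Equiv.Perm (Fin 3), Tt Θ v a (a ∘ ρ) := by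
    intro a
    rw [Finset.sum_comm]
    simp only [← Finset.sum_mul]
    rw [Finset.sum_congr rfl fun b _ => by rw [wick a b le_rfl]]
    simp only [Finset.sum_mul, ite_mul, one_mul, zero_mul]
    rw [Finset.sum_comm]
    refine Finset.sum_congr rfl fun ρ _ => ?_
    rw [Finset.sum_ite_eq]
    simp
  rw [Finset.sum_congr rfl fun a _ => h2 a, Finset.sum_comm]
  rfl


theorem wick1 (a b : Fin r) :
    ∑ f : Fin r → Fin 9, wt f * (star (z9 (f a)) * z9 (f b)) = if a = b then 1 else 0 := by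
  have h := wick (fun _ : Fin 1 => a) (fun _ : Fin 1 => b) (by norm_num)
  simp only [Fin.prod_univ_one] at h
  rw [h]
  rw [Fintype.sum_unique]
  refine if_congr ?_ rfl rfl
  constructor
  · intro h1
    exact congrFun h1 0
  · intro h1
    funext s
    exact h1

theorem wick2 (a0 a1 b0 b1 : Fin r) :
    ∑ f : Fin r → Fin 9, wt f * ((star (z9 (f a0)) * z9 (f b0)) * (star (z9 (f a1)) * z9 (f b1))) =
      (if a0 = b0 ∧ a1 = b1 then 1 else 0) + (if a1 = b0 ∧ a0 = b1 then 1 else 0) := by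
  have h := wick ![a0, a1] ![b0, b1] (by norm_num)
  simp only [Fin.prod_univ_two, Matrix.cons_val_zero, Matrix.cons_val_one] at h
  rw [h]
  have hu : (Finset.univ : Finset (Equiv.Perm (Fin 2))) = {1, Equiv.swap 0 1} := by decide
  rw [hu, Finset.sum_pair (by decide)]
  congr 1
  · refine if_congr ?_ rfl rfl
    constructor
    · intro h1
      exact ⟨by simpa using congrFun h1 0, by simpa using congrFun h1 1⟩
    · rintro ⟨h1, h2⟩
      subst h1; subst h2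
      rfl
  · refine if_congr ?_ rfl rfl
    constructor
    · intro h1
      exact ⟨by simpa using congrFun h1 0, by simpa using congrFun h1 1⟩
    · rintro ⟨h1, h2⟩
      subst h1; subst h2
      funext s
      fin_cases s <;> simp

/-- The `3`-cycle with `0 ↦ 1 ↦ 2 ↦ 0`. -/
def cyc : Equiv.Perm (Fin 3) := Equiv.swap 0 1 * Equiv.swap 1 2

theorem cyc_val : cyc 0 = 1 ∧ cyc 1 = 2 ∧ cyc 2 = 0 := by decide

theorem ite_alg (P Q R : Prop) [Decidable P] [Decidable Q] [Decidable R] (t : ℂ) :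
    (((if P then 1 else 0) + (if Q then 1 else 0)) * (if R then 1 else 0)) * t =
      (if P ∧ R then t else 0) + (if Q ∧ R then t else 0) := by
  by_cases hP : P <;> by_cases hQ : Q <;> by_cases hR : R <;> simp [hP, hQ, hR] <;> ring

theorem avgA (Θ : Fin n → Fin n → Matrix (Fin r) (Fin r) ℂ) (v : Fin 3 → Fin n → ℂ) :
    ∑ f : Fin r → Fin 9, ∑ g : Fin r → Fin 9, wt f * wt g *
      wedge3 ![sq Θ v (rv f) (rv f), sq Θ v (rv f) (rv f), sq Θ v (rv g) (rv g)] =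
    pform Θ v 1 + pform Θ v (Equiv.swap 0 1) := by
  have h1 : ∀ f g : Fin r → Fin 9, wt f * wt g *
      wedge3 ![sq Θ v (rv f) (rv f), sq Θ v (rv f) (rv f), sq Θ v (rv g) (rv g)] =
      ∑ a : Fin 3 → Fin r, ∑ b : Fin 3 → Fin r,
        ((wt f * ((star (z9 (f (a 0))) * z9 (f (b 0))) * (star (z9 (f (a 1))) * z9 (f (b 1))))) *
        (wt g * (star (z9 (g (a 2))) * z9 (g (b 2))))) * Tt Θ v a b := by
    intro f g
    have e : ![sq Θ v (rv f) (rv f), sq Θ v (rv f) (rv f), sq Θ v (rv g) (rv g)] =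
        fun s => sq Θ v ((![rv f, rv f, rv g] : Fin 3 → Fin r → ℂ) s)
          ((![rv f, rv f, rv g] : Fin 3 → Fin r → ℂ) s) := by
      funext s; fin_cases s <;> rfl
    rw [e, wedge3_expand, Finset.mul_sum]
    refine Finset.sum_congr rfl fun a _ => ?_
    rw [Finset.mul_sum]
    refine Finset.sum_congr rfl fun b _ => ?_
    simp only [Fin.prod_univ_three, rv, Matrix.cons_val_zero, Matrix.cons_val_one,
      Matrix.cons_val_two, Matrix.tail_cons, Matrix.head_cons, Matrix.cons_val]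
    ring
  simp only [h1]
  have h2 : ∑ f : Fin r → Fin 9, ∑ g : Fin r → Fin 9, ∑ a : Fin 3 → Fin r, ∑ b : Fin 3 → Fin r,
        ((wt f * ((star (z9 (f (a 0))) * z9 (f (b 0))) * (star (z9 (f (a 1))) * z9 (f (b 1))))) *
        (wt g * (star (z9 (g (a 2))) * z9 (g (b 2))))) * Tt Θ v a b =
      ∑ a : Fin 3 → Fin r, ∑ b : Fin 3 → Fin r,
        (((if a 0 = b 0 ∧ a 1 = b 1 then 1 else 0) + (if a 1 = b 0 ∧ a 0 = b 1 then 1 else 0)) *
        (if a 2 = b 2 then 1 else 0)) * Tt Θ v a b := by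
    have h3 : ∀ a b : Fin 3 → Fin r,
        (((if a 0 = b 0 ∧ a 1 = b 1 then 1 else 0) + (if a 1 = b 0 ∧ a 0 = b 1 then 1 else 0)) *
        (if a 2 = b 2 then 1 else 0)) * Tt Θ v a b =
        ∑ f : Fin r → Fin 9, ∑ g : Fin r → Fin 9,
        ((wt f * ((star (z9 (f (a 0))) * z9 (f (b 0))) * (star (z9 (f (a 1))) * z9 (f (b 1))))) *
        (wt g * (star (z9 (g (a 2))) * z9 (g (b 2))))) * Tt Θ v a b := by
      intro a b
      rw [← wick2 (a 0) (a 1) (b 0) (b 1), ← wick1 (a 2) (b 2), Finset.sum_mul_sum,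
        Finset.sum_mul]
      exact Finset.sum_congr rfl fun f _ => by rw [Finset.sum_mul]
    simp only [h3]
    calc _ = ∑ f : Fin r → Fin 9, ∑ a : Fin 3 → Fin r, ∑ g : Fin r → Fin 9,
          ∑ b : Fin 3 → Fin r, _ := Finset.sum_congr rfl fun f _ => Finset.sum_comm
      _ = ∑ a : Fin 3 → Fin r, ∑ f : Fin r → Fin 9, ∑ g : Fin r → Fin 9,
          ∑ b : Fin 3 → Fin r, _ := Finset.sum_comm
      _ = ∑ a : Fin 3 → Fin r, ∑ f : Fin r → Fin 9, ∑ b : Fin 3 → Fin r,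
          ∑ g : Fin r → Fin 9, _ :=
          Finset.sum_congr rfl fun a _ => Finset.sum_congr rfl fun f _ => Finset.sum_comm
      _ = _ := Finset.sum_congr rfl fun a _ => Finset.sum_comm
  rw [h2]
  unfold pform
  rw [← Finset.sum_add_distrib]
  refine Finset.sum_congr rfl fun a _ => ?_
  have h4 : ∀ b : Fin 3 → Fin r,
      ((((if a 0 = b 0 ∧ a 1 = b 1 then 1 else 0) + (if a 1 = b 0 ∧ a 0 = b 1 then 1 else 0)) *
        (if a 2 = b 2 then 1 else 0)) * Tt Θ v a b : ℂ) =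
      (if a ∘ (1 : Equiv.Perm (Fin 3)) = b then Tt Θ v a b else 0) +
      (if a ∘ (Equiv.swap 0 1 : Equiv.Perm (Fin 3)) = b then Tt Θ v a b else 0) := by
    intro b
    have e1 : (a ∘ (1 : Equiv.Perm (Fin 3)) = b) ↔ ((a 0 = b 0 ∧ a 1 = b 1) ∧ a 2 = b 2) := by
      constructor
      · rintro rfl; simp
      · rintro ⟨⟨h1, h2⟩, h3⟩; funext s; fin_cases s <;> simp [h1, h2, h3]
    have e2 : (a ∘ (Equiv.swap 0 1 : Equiv.Perm (Fin 3)) = b) ↔
        ((a 1 = b 0 ∧ a 0 = b 1) ∧ a 2 = b 2) := by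
      constructor
      · rintro rfl; simp [Equiv.swap_apply_def]
      · rintro ⟨⟨h1, h2⟩, h3⟩; funext s; fin_cases s <;> simp [h1, h2, h3, Equiv.swap_apply_def]
    rw [ite_alg]
    exact congrArg₂ _ (if_congr e1.symm rfl rfl) (if_congr e2.symm rfl rfl)
  rw [Finset.sum_congr rfl fun b _ => h4 b, Finset.sum_add_distrib, Finset.sum_ite_eq,
    Finset.sum_ite_eq]
  simp [Tt]

theorem avgB (Θ : Fin n → Fin n → Matrix (Fin r) (Fin r) ℂ) (v : Fin 3 → Fin n → ℂ) :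
    ∑ f : Fin r → Fin 9, ∑ g : Fin r → Fin 9, wt f * wt g *
      wedge3 ![sq Θ v (rv f) (rv f), sq Θ v (rv f) (rv g), sq Θ v (rv g) (rv f)] =
    pform Θ v (Equiv.swap 1 2) + pform Θ v cyc := by
  have h1 : ∀ f g : Fin r → Fin 9, wt f * wt g *
      wedge3 ![sq Θ v (rv f) (rv f), sq Θ v (rv f) (rv g), sq Θ v (rv g) (rv f)] =
      ∑ a : Fin 3 → Fin r, ∑ b : Fin 3 → Fin r,
        ((wt f * ((star (z9 (f (a 0))) * z9 (f (b 0))) * (star (z9 (f (a 1))) * z9 (f (b 2))))) *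
        (wt g * (star (z9 (g (a 2))) * z9 (g (b 1))))) * Tt Θ v a b := by
    intro f g
    have e : ![sq Θ v (rv f) (rv f), sq Θ v (rv f) (rv g), sq Θ v (rv g) (rv f)] =
        fun s => sq Θ v ((![rv f, rv f, rv g] : Fin 3 → Fin r → ℂ) s)
          ((![rv f, rv g, rv f] : Fin 3 → Fin r → ℂ) s) := by
      funext s; fin_cases s <;> rfl
    rw [e, wedge3_expand, Finset.mul_sum]
    refine Finset.sum_congr rfl fun a _ => ?_
    rw [Finset.mul_sum]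
    refine Finset.sum_congr rfl fun b _ => ?_
    simp only [Fin.prod_univ_three, rv, Matrix.cons_val_zero, Matrix.cons_val_one,
      Matrix.cons_val_two, Matrix.tail_cons, Matrix.head_cons, Matrix.cons_val]
    ring
  simp only [h1]
  have h2 : ∑ f : Fin r → Fin 9, ∑ g : Fin r → Fin 9, ∑ a : Fin 3 → Fin r, ∑ b : Fin 3 → Fin r,
        ((wt f * ((star (z9 (f (a 0))) * z9 (f (b 0))) * (star (z9 (f (a 1))) * z9 (f (b 2))))) *
        (wt g * (star (z9 (g (a 2))) * z9 (g (b 1))))) * Tt Θ v a b =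
      ∑ a : Fin 3 → Fin r, ∑ b : Fin 3 → Fin r,
        (((if a 0 = b 0 ∧ a 1 = b 2 then 1 else 0) + (if a 1 = b 0 ∧ a 0 = b 2 then 1 else 0)) *
        (if a 2 = b 1 then 1 else 0)) * Tt Θ v a b := by
    have h3 : ∀ a b : Fin 3 → Fin r,
        (((if a 0 = b 0 ∧ a 1 = b 2 then 1 else 0) + (if a 1 = b 0 ∧ a 0 = b 2 then 1 else 0)) *
        (if a 2 = b 1 then 1 else 0)) * Tt Θ v a b =
        ∑ f : Fin r → Fin 9, ∑ g : Fin r → Fin 9,
        ((wt f * ((star (z9 (f (a 0))) * z9 (f (b 0))) * (star (z9 (f (a 1))) * z9 (f (b 2))))) *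
        (wt g * (star (z9 (g (a 2))) * z9 (g (b 1))))) * Tt Θ v a b := by
      intro a b
      rw [← wick2 (a 0) (a 1) (b 0) (b 2), ← wick1 (a 2) (b 1), Finset.sum_mul_sum,
        Finset.sum_mul]
      exact Finset.sum_congr rfl fun f _ => by rw [Finset.sum_mul]
    simp only [h3]
    calc _ = ∑ f : Fin r → Fin 9, ∑ a : Fin 3 → Fin r, ∑ g : Fin r → Fin 9,
          ∑ b : Fin 3 → Fin r, _ := Finset.sum_congr rfl fun f _ => Finset.sum_comm
      _ = ∑ a : Fin 3 → Fin r, ∑ f : Fin r → Fin 9, ∑ g : Fin r → Fin 9,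
          ∑ b : Fin 3 → Fin r, _ := Finset.sum_comm
      _ = ∑ a : Fin 3 → Fin r, ∑ f : Fin r → Fin 9, ∑ b : Fin 3 → Fin r,
          ∑ g : Fin r → Fin 9, _ :=
          Finset.sum_congr rfl fun a _ => Finset.sum_congr rfl fun f _ => Finset.sum_comm
      _ = _ := Finset.sum_congr rfl fun a _ => Finset.sum_comm
  rw [h2]
  unfold pform
  rw [← Finset.sum_add_distrib]
  refine Finset.sum_congr rfl fun a _ => ?_
  have h4 : ∀ b : Fin 3 → Fin r,
      ((((if a 0 = b 0 ∧ a 1 = b 2 then 1 else 0) + (if a 1 = b 0 ∧ a 0 = b 2 then 1 else 0)) *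
        (if a 2 = b 1 then 1 else 0)) * Tt Θ v a b : ℂ) =
      (if a ∘ (Equiv.swap 1 2 : Equiv.Perm (Fin 3)) = b then Tt Θ v a b else 0) +
      (if a ∘ cyc = b then Tt Θ v a b else 0) := by
    intro b
    have e1 : (a ∘ (Equiv.swap 1 2 : Equiv.Perm (Fin 3)) = b) ↔
        ((a 0 = b 0 ∧ a 1 = b 2) ∧ a 2 = b 1) := by
      constructor
      · rintro rfl; simp [Equiv.swap_apply_def]
      · rintro ⟨⟨h1, h2⟩, h3⟩; funext s; fin_cases s <;> simp [h1, h2, h3, Equiv.swap_apply_def]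
    have e2 : (a ∘ cyc = b) ↔ ((a 1 = b 0 ∧ a 0 = b 2) ∧ a 2 = b 1) := by
      obtain ⟨c0, c1, c2⟩ := cyc_val
      constructor
      · rintro rfl; simp [c0, c1, c2]
      · rintro ⟨⟨h1, h2⟩, h3⟩; funext s; fin_cases s <;> simp [h1, h2, h3, c0, c1, c2]
    rw [ite_alg]
    exact congrArg₂ _ (if_congr e1.symm rfl rfl) (if_congr e2.symm rfl rfl)
  rw [Finset.sum_congr rfl fun b _ => h4 b, Finset.sum_add_distrib, Finset.sum_ite_eq,
    Finset.sum_ite_eq]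
  simp [Tt]


theorem wedge3_perm (θ : Fin 3 → M3) (π : Equiv.Perm (Fin 3)) :
    wedge3 (fun s => θ (π s)) = wedge3 θ := by
  unfold wedge3
  refine Fintype.sum_equiv (Equiv.mulRight π⁻¹) _ _ fun σ => ?_
  refine Fintype.sum_equiv (Equiv.mulRight π⁻¹) _ _ fun τ => ?_
  have h1 : ∏ s, θ (π s) (σ s) (τ s) =
      ∏ s, θ s ((Equiv.mulRight π⁻¹ σ : Equiv.Perm (Fin 3)) s)
        ((Equiv.mulRight π⁻¹ τ : Equiv.Perm (Fin 3)) s) := by
    rw [← Equiv.prod_comp π (fun s => θ s ((Equiv.mulRight π⁻¹ σ : Equiv.Perm (Fin 3)) s)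
        ((Equiv.mulRight π⁻¹ τ : Equiv.Perm (Fin 3)) s))]
    refine Finset.prod_congr rfl fun s _ => ?_
    simp
  rw [h1]
  congr 1
  have h2 : ((Equiv.Perm.sign π : ℤ) : ℂ) * ((Equiv.Perm.sign π : ℤ) : ℂ) = 1 := by
    rcases Int.units_eq_one_or (Equiv.Perm.sign π) with h | h <;> simp [h]
  simp only [Equiv.coe_mulRight, map_mul, Equiv.Perm.sign_inv, Units.val_mul, Int.cast_mul]
  linear_combination (-((Equiv.Perm.sign σ : ℤ) : ℂ) * ((Equiv.Perm.sign τ : ℤ) : ℂ)) * h2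

theorem pform_conj (Θ : Fin n → Fin n → Matrix (Fin r) (Fin r) ℂ) (v : Fin 3 → Fin n → ℂ)
    (ρ π : Equiv.Perm (Fin 3)) : pform Θ v ρ = pform Θ v (π * ρ * π⁻¹) := by
  unfold pform
  refine (Fintype.sum_equiv (Equiv.arrowCongr π⁻¹ (Equiv.refl (Fin r))) _ _ fun a => ?_).symm
  have h := wedge3_perm (fun s => Matrix.of fun k l =>
    pull Θ v k l (a s) (a ((π * ρ * π⁻¹) s))) π
  rw [← h]
  congr 1
  funext s
  ext k l
  simp [Equiv.arrowCongr]
  rfl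

theorem pform_01 (Θ : Fin n → Fin n → Matrix (Fin r) (Fin r) ℂ) (v : Fin 3 → Fin n → ℂ) :
    pform Θ v (Equiv.swap 0 1) = pform Θ v (Equiv.swap 1 2) := by
  rw [pform_conj Θ v (Equiv.swap 0 1) (Equiv.swap 0 2)]
  congr 1
  decide

theorem pform_02 (Θ : Fin n → Fin n → Matrix (Fin r) (Fin r) ℂ) (v : Fin 3 → Fin n → ℂ) :
    pform Θ v (Equiv.swap 0 2) = pform Θ v (Equiv.swap 1 2) := by
  rw [pform_conj Θ v (Equiv.swap 0 2) (Equiv.swap 0 1)]
  congr 1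
  decide

theorem pform_cyc (Θ : Fin n → Fin n → Matrix (Fin r) (Fin r) ℂ) (v : Fin 3 → Fin n → ℂ) :
    pform Θ v (Equiv.swap 1 2 * Equiv.swap 0 1) = pform Θ v cyc := by
  rw [pform_conj Θ v (Equiv.swap 1 2 * Equiv.swap 0 1) (Equiv.swap 0 1)]
  congr 1
  decide

theorem chern3_pform (Θ : Fin n → Fin n → Matrix (Fin r) (Fin r) ℂ) (v : Fin 3 → Fin n → ℂ) :
    chern3 Θ v = (1 / 6) * (pform Θ v 1 - 3 * pform Θ v (Equiv.swap 1 2) + 2 * pform Θ v cyc) := by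
  unfold chern3
  have h : ∑ a : Fin 3 → Fin r, ∑ ρ : Equiv.Perm (Fin 3), ((Equiv.Perm.sign ρ : ℤ) : ℂ) *
      wedge3 (fun s => Matrix.of fun k l => pull Θ v k l (a s) (a (ρ s))) =
      ∑ ρ : Equiv.Perm (Fin 3), ((Equiv.Perm.sign ρ : ℤ) : ℂ) * pform Θ v ρ := by
    rw [Finset.sum_comm]
    refine Finset.sum_congr rfl fun ρ _ => ?_
    rw [← Finset.mul_sum]
    rfl
  rw [h, sum_perm, pform_01, pform_02, pform_cyc]
  have : (Equiv.swap 0 1 * Equiv.swap 1 2 : Equiv.Perm (Fin 3)) = cyc := rfl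
  rw [this]
  have s1 : ((Equiv.Perm.sign cyc : ℤ) : ℂ) = 1 := by
    have : Equiv.Perm.sign cyc = 1 := by decide
    rw [this]; simp
  rw [s1]
  simp
  ring

theorem sum_pform (Θ : Fin n → Fin n → Matrix (Fin r) (Fin r) ℂ) (v : Fin 3 → Fin n → ℂ) :
    ∑ ρ : Equiv.Perm (Fin 3), pform Θ v ρ =
      pform Θ v 1 + 3 * pform Θ v (Equiv.swap 1 2) + 2 * pform Θ v cyc := by
  rw [sum_perm, pform_01, pform_02, pform_cyc]
  have : (Equiv.swap 0 1 * Equiv.swap 1 2 : Equiv.Perm (Fin 3)) = cyc := rfl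
  rw [this]
  ring

/-- The compression of the curvature to `span (x, y) ⊕ span x`. -/
def V1 (x y : Fin r → ℂ) : Matrix (Fin r) (Fin 3) ℂ := Matrix.of fun i j => ![x i, y i, 0] j

/-- The second block. -/
def V2 (x : Fin r → ℂ) : Matrix (Fin r) (Fin 3) ℂ := Matrix.of fun i j => ![0, 0, x i] j

/-- The family on `ℂ^3` used for `c_1 c_2 - c_3`. -/
def Bf (Θ : Fin n → Fin n → Matrix (Fin r) (Fin r) ℂ) (v : Fin 3 → Fin n → ℂ)
    (x y : Fin r → ℂ) (k l : Fin 3) : M3 :=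
  (V1 x y)ᴴ * pull Θ v k l * V1 x y + (V2 x)ᴴ * pull Θ v k l * V2 x

theorem conj_entry (N : Matrix (Fin r) (Fin r) ℂ) (U U' : Matrix (Fin r) (Fin 3) ℂ)
    (i j : Fin 3) : (Uᴴ * N * U') i j = ∑ α, ∑ β, star (U α i) * U' β j * N α β := by
  simp only [Matrix.mul_apply, Matrix.conjTranspose_apply, Finset.sum_mul]
  rw [Finset.sum_comm]
  refine Finset.sum_congr rfl fun α _ => Finset.sum_congr rfl fun β _ => ?_
  ring

theorem P_Bf (Θ : Fin n → Fin n → Matrix (Fin r) (Fin r) ℂ) (v : Fin 3 → Fin n → ℂ)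
    (x y : Fin r → ℂ) :
    P (Bf Θ v x y) 0 0 = sq Θ v x x ∧ P (Bf Θ v x y) 0 1 = sq Θ v x y ∧ P (Bf Θ v x y) 0 2 = 0 ∧
    P (Bf Θ v x y) 1 0 = sq Θ v y x ∧ P (Bf Θ v x y) 1 1 = sq Θ v y y ∧ P (Bf Θ v x y) 1 2 = 0 ∧
    P (Bf Θ v x y) 2 0 = 0 ∧ P (Bf Θ v x y) 2 1 = 0 ∧ P (Bf Θ v x y) 2 2 = sq Θ v x x := by
  refine ⟨?_, ?_, ?_, ?_, ?_, ?_, ?_, ?_, ?_⟩ <;>
  · ext k l
    simp only [P, Bf, Matrix.of_apply, Matrix.add_apply, conj_entry, sq, Matrix.zero_apply]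
    simp [V1, V2]

theorem T_zero (A B : M3) : T 0 A B = 0 ∧ T A 0 B = 0 ∧ T A B 0 = 0 := by
  refine ⟨?_, ?_, ?_⟩ <;> (unfold T; simp; try ring)

theorem T_comm12 (A B C : M3) : T A B C = T A C B := by
  unfold T
  rw [add_right_comm A B C, add_comm B C]
  ring

theorem Phi6_Bf (Θ : Fin n → Fin n → Matrix (Fin r) (Fin r) ℂ) (v : Fin 3 → Fin n → ℂ)
    (x y : Fin r → ℂ) :
    Phi6 (Bf Θ v x y) = wedge3 ![sq Θ v x x, sq Θ v x x, sq Θ v y y] -
      wedge3 ![sq Θ v x x, sq Θ v x y, sq Θ v y x] := by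
  obtain ⟨h00, h01, h02, h10, h11, h12, h20, h21, h22⟩ := P_Bf Θ v x y
  rw [Phi6_T', sum_perm]
  simp only [wedge3_eq_T]
  simp [Equiv.swap_apply_def, h00, h01, h02, h10, h11, h12, h20, h21, h22, T_zero]
  have e1 : T (sq Θ v x x) (sq Θ v y y) (sq Θ v x x) = T (sq Θ v x x) (sq Θ v x x) (sq Θ v y y) :=
    T_comm12 _ _ _
  have e2 : T (sq Θ v x y) (sq Θ v y x) (sq Θ v x x) = T (sq Θ v x x) (sq Θ v x y) (sq Θ v y x) := by
    unfold T
    rw [show sq Θ v x y + sq Θ v y x + sq Θ v x x = sq Θ v x x + sq Θ v x y + sq Θ v y x by abel,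
      add_comm (sq Θ v x y) (sq Θ v x x), add_comm (sq Θ v y x) (sq Θ v x x)]
    ring
  rw [e1, e2]
  ring

theorem Bf_sum (Θ : Fin n → Fin n → Matrix (Fin r) (Fin r) ℂ) (v : Fin 3 → Fin n → ℂ)
    (x y : Fin r → ℂ) (ξ : Fin 3 → ℂ) :
    ∑ k, ∑ l, (ξ k * star (ξ l)) • Bf Θ v x y k l =
      (V1 x y)ᴴ * ev Θ (fun i => ∑ k, ξ k * v k i) * V1 x y +
        (V2 x)ᴴ * ev Θ (fun i => ∑ k, ξ k * v k i) * V2 x := by
  have h := pull_sum Θ v ξ
  have h' : ev Θ (fun i => ∑ k, ξ k * v k i) = ∑ k, ∑ l, (ξ k * star (ξ l)) • pull Θ v k l := by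
    rw [h]; rfl
  rw [h']
  simp only [Bf, smul_add, Finset.sum_add_distrib, Matrix.mul_sum, Matrix.sum_mul,
    Matrix.mul_smul, Matrix.smul_mul]

theorem Bf_nonneg (Θ : Fin n → Fin n → Matrix (Fin r) (Fin r) ℂ)
    (hΘ : ∀ ξ, (ev Θ ξ).PosSemidef) (v : Fin 3 → Fin n → ℂ) (x y : Fin r → ℂ) :
    0 ≤ Phi6 (Bf Θ v x y) := by
  apply core_nonneg
  intro ξ
  rw [Bf_sum]
  exact ((hΘ _).conjTranspose_mul_mul_same _).add ((hΘ _).conjTranspose_mul_mul_same _)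

theorem comb_ne_zero {v : Fin 3 → Fin n → ℂ} (hv : LinearIndependent ℂ v) {ξ : Fin 3 → ℂ}
    (hξ : ξ ≠ 0) : (fun i => ∑ k, ξ k * v k i) ≠ 0 := by
  intro h0
  apply hξ
  have h1 : ∑ k, ξ k • v k = 0 := by
    funext i
    have := congrFun h0 i
    simpa [Finset.sum_apply] using this
  exact funext (Fintype.linearIndependent_iff.mp hv ξ h1)

theorem V1_mulVec (x y : Fin r → ℂ) (c : Fin 3 → ℂ) : V1 x y *ᵥ c = c 0 • x + c 1 • y := by
  funext i
  simp [V1, Matrix.mulVec, dotProduct, Fin.sum_univ_three]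
  ring

theorem V2_mulVec (x : Fin r → ℂ) (c : Fin 3 → ℂ) : V2 x *ᵥ c = c 2 • x := by
  funext i
  simp [V2, Matrix.mulVec, dotProduct, Fin.sum_univ_three]
  ring

theorem Bf_pos (Θ : Fin n → Fin n → Matrix (Fin r) (Fin r) ℂ)
    (hΘ : ∀ ξ, ξ ≠ 0 → (ev Θ ξ).PosDef) (v : Fin 3 → Fin n → ℂ) (hv : LinearIndependent ℂ v)
    (x y : Fin r → ℂ) (hxy : LinearIndependent ℂ ![x, y]) :
    0 < Phi6 (Bf Θ v x y) := by
  apply core_pos
  intro ξ hξ
  rw [Bf_sum]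
  set M := ev Θ (fun i => ∑ k, ξ k * v k i) with hM
  have hMp : M.PosDef := hΘ _ (comb_ne_zero hv hξ)
  have hP1 := hMp.posSemidef.conjTranspose_mul_mul_same (V1 x y)
  have hP2 := hMp.posSemidef.conjTranspose_mul_mul_same (V2 x)
  refine Matrix.PosDef.of_dotProduct_mulVec_pos (hP1.add hP2).isHermitian fun c hc => ?_
  have hq : ∀ U : Matrix (Fin r) (Fin 3) ℂ, star c ⬝ᵥ (Uᴴ * M * U) *ᵥ c =
      star (U *ᵥ c) ⬝ᵥ M *ᵥ (U *ᵥ c) := by
    intro U
    rw [← Matrix.mulVec_mulVec, ← Matrix.mulVec_mulVec, Matrix.dotProduct_mulVec,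
      Matrix.star_mulVec]
  rw [Matrix.add_mulVec, dotProduct_add, hq, hq]
  by_cases h1 : V1 x y *ᵥ c = 0
  · have h1' := h1
    rw [V1_mulVec] at h1'
    have h2 := LinearIndependent.pair_iff.mp hxy (c 0) (c 1) h1'
    have h3 : V2 x *ᵥ c ≠ 0 := by
      rw [V2_mulVec]
      intro h4
      rcases smul_eq_zero.mp h4 with h5 | h5
      · apply hc
        funext i
        fin_cases i
        · exact h2.1
        · exact h2.2
        · exact h5
      · have := hxy.ne_zero 0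
        exact this h5
    rw [h1]
    simp only [star_zero, Matrix.mulVec_zero, dotProduct_zero, zero_add]
    exact hMp.dotProduct_mulVec_pos h3
  · have h4 := hMp.dotProduct_mulVec_pos h1
    have h5 := hMp.posSemidef.dotProduct_mulVec_nonneg (V2 x *ᵥ c)
    exact add_pos_of_pos_of_nonneg h4 h5

/-- The family used for the Segre form. -/
def Cf (Θ : Fin n → Fin n → Matrix (Fin r) (Fin r) ℂ) (v : Fin 3 → Fin n → ℂ)
    (x : Fin r → ℂ) (k l : Fin 3) : M3 := (sq Θ v x x k l) • (1 : M3)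

theorem Phi6_Cf (Θ : Fin n → Fin n → Matrix (Fin r) (Fin r) ℂ) (v : Fin 3 → Fin n → ℂ)
    (x : Fin r → ℂ) : Phi6 (Cf Θ v x) = wedge3 (fun _ => sq Θ v x x) := by
  have hd : ∀ a : Fin 3, P (Cf Θ v x) a a = sq Θ v x x := by
    intro a; ext k l; simp [P, Cf]
  have ho : ∀ a b : Fin 3, a ≠ b → P (Cf Θ v x) a b = 0 := by
    intro a b hab; ext k l; simp [P, Cf, hab]
  rw [Phi6_T', sum_perm, wedge3_eq_T]
  have h01 := ho 0 1 (by decide)
  have h02 := ho 0 2 (by decide)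
  have h10 := ho 1 0 (by decide)
  have h12 := ho 1 2 (by decide)
  have h20 := ho 2 0 (by decide)
  have h21 := ho 2 1 (by decide)
  simp [Equiv.swap_apply_def, hd, h01, h02, h10, h12, h20, h21, T_zero]

theorem sq_sum (Θ : Fin n → Fin n → Matrix (Fin r) (Fin r) ℂ) (v : Fin 3 → Fin n → ℂ)
    (x : Fin r → ℂ) (ξ : Fin 3 → ℂ) :
    ∑ k, ∑ l, (ξ k * star (ξ l)) • Cf Θ v x k l =
      (star x ⬝ᵥ (ev Θ (fun i => ∑ k, ξ k * v k i)) *ᵥ x) • (1 : M3) := by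
  have h := pull_sum Θ v ξ
  have h' : ev Θ (fun i => ∑ k, ξ k * v k i) = ∑ k, ∑ l, (ξ k * star (ξ l)) • pull Θ v k l := by
    rw [h]; rfl
  rw [h']
  simp only [Cf, smul_smul, ← Finset.sum_smul]
  congr 1
  have e : ∀ N : Matrix (Fin r) (Fin r) ℂ, star x ⬝ᵥ N *ᵥ x =
      ∑ α, ∑ β, star (x α) * x β * N α β := by
    intro N
    simp only [dotProduct, Matrix.mulVec, Finset.mul_sum, Pi.star_apply]
    refine Finset.sum_congr rfl fun α _ => Finset.sum_congr rfl fun β _ => ?_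
    ring
  have e2 : star x ⬝ᵥ (∑ k, ∑ l, (ξ k * star (ξ l)) • pull Θ v k l) *ᵥ x =
      ∑ k, ∑ l, (ξ k * star (ξ l)) * (star x ⬝ᵥ (pull Θ v k l) *ᵥ x) := by
    simp only [Matrix.sum_mulVec, Matrix.smul_mulVec, dotProduct_sum, dotProduct_smul,
      smul_eq_mul]
  rw [e2]
  simp only [e, sq, Matrix.of_apply]

theorem Cf_nonneg (Θ : Fin n → Fin n → Matrix (Fin r) (Fin r) ℂ)
    (hΘ : ∀ ξ, (ev Θ ξ).PosSemidef) (v : Fin 3 → Fin n → ℂ) (x : Fin r → ℂ) :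
    0 ≤ wedge3 (fun _ => sq Θ v x x) := by
  rw [← Phi6_Cf]
  apply core_nonneg
  intro ξ
  rw [sq_sum]
  exact Matrix.PosSemidef.one.smul ((hΘ _).dotProduct_mulVec_nonneg x)

theorem Cf_pos (Θ : Fin n → Fin n → Matrix (Fin r) (Fin r) ℂ)
    (hΘ : ∀ ξ, ξ ≠ 0 → (ev Θ ξ).PosDef) (v : Fin 3 → Fin n → ℂ) (hv : LinearIndependent ℂ v)
    (x : Fin r → ℂ) (hx : x ≠ 0) :
    0 < wedge3 (fun _ => sq Θ v x x) := by
  rw [← Phi6_Cf]
  apply core_pos
  intro ξ hξ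
  rw [sq_sum]
  exact Matrix.PosDef.one.smul ((hΘ _ (comb_ne_zero hv hξ)).dotProduct_mulVec_pos hx)

theorem w9_pos (e : Fin 9) : 0 < w9 e := by
  have h : ∀ e : Fin 9, 0 < W9 e := by decide
  have h1 : w9 e = (((W9 e : ℝ) / 48 : ℝ) : ℂ) := by
    unfold w9; push_cast; rfl
  rw [h1]
  have h2 : (0 : ℝ) < (W9 e : ℝ) := by exact_mod_cast h e
  have h3 : (0 : ℝ) < (W9 e : ℝ) / 48 := by positivity
  exact_mod_cast h3

theorem wt_pos (f : Fin r → Fin 9) : 0 < wt f :=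
  Finset.prod_pos fun c _ => w9_pos (f c)

/-- The first Chern form as a `(1,1)`-form on the span. -/
def c1form (Θ : Fin n → Fin n → Matrix (Fin r) (Fin r) ℂ) (v : Fin 3 → Fin n → ℂ) : M3 :=
  Matrix.of fun k l => (pull Θ v k l).trace

/-- The `(1,1)`-form `Θ_{αβ}` on the span. -/
def entf (Θ : Fin n → Fin n → Matrix (Fin r) (Fin r) ℂ) (v : Fin 3 → Fin n → ℂ)
    (α β : Fin r) : M3 :=
  Matrix.of fun k l => pull Θ v k l α β

/-- `c_1^3`. -/
def chern111 (Θ : Fin n → Fin n → Matrix (Fin r) (Fin r) ℂ) (v : Fin 3 → Fin n → ℂ) : ℂ :=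
  wedge3 ![c1form Θ v, c1form Θ v, c1form Θ v]

/-- `c_1 ∧ c_2` with `c_2 = (1/2) ∑_{α,β} (Θ_{αα} ∧ Θ_{ββ} - Θ_{αβ} ∧ Θ_{βα})`. -/
noncomputable def chern12 (Θ : Fin n → Fin n → Matrix (Fin r) (Fin r) ℂ)
    (v : Fin 3 → Fin n → ℂ) : ℂ :=
  (1 / 2) * ∑ α, ∑ β, (wedge3 ![c1form Θ v, entf Θ v α α, entf Θ v β β] -
    wedge3 ![c1form Θ v, entf Θ v α β, entf Θ v β α])

theorem T_add1 (A A' B C : M3) : T (A + A') B C = T A B C + T A' B C := by
  unfold T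
  simp [Matrix.det_fin_three, Matrix.add_apply]
  ring

theorem T_swap (A B C : M3) : T A B C = T B A C := by
  unfold T
  rw [add_comm A B]
  ring

theorem T_sum1 (N : Fin r → M3) (B C : M3) : T (∑ α, N α) B C = ∑ α, T (N α) B C := by
  classical
  refine Finset.induction_on (Finset.univ : Finset (Fin r)) ?_ ?_
  · simp [T_zero]
  · intro a s ha ih
    rw [Finset.sum_insert ha, Finset.sum_insert ha, T_add1, ih]

theorem T_sum2 (N : Fin r → M3) (B C : M3) : T B (∑ α, N α) C = ∑ α, T B (N α) C := by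
  rw [T_swap, T_sum1]
  exact Finset.sum_congr rfl fun α _ => T_swap _ _ _

theorem T_sum3 (N : Fin r → M3) (B C : M3) : T B C (∑ α, N α) = ∑ α, T B C (N α) := by
  rw [T_comm12, T_sum2]
  exact Finset.sum_congr rfl fun α _ => T_comm12 _ _ _

theorem c1form_eq (Θ : Fin n → Fin n → Matrix (Fin r) (Fin r) ℂ) (v : Fin 3 → Fin n → ℂ) :
    c1form Θ v = ∑ α, entf Θ v α α := by
  ext k l
  simp [c1form, entf, Matrix.trace, Matrix.sum_apply]

theorem pform_T (Θ : Fin n → Fin n → Matrix (Fin r) (Fin r) ℂ) (v : Fin 3 → Fin n → ℂ)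
    (ρ : Equiv.Perm (Fin 3)) : pform Θ v ρ = ∑ a : Fin 3 → Fin r,
      T (entf Θ v (a 0) (a (ρ 0))) (entf Θ v (a 1) (a (ρ 1))) (entf Θ v (a 2) (a (ρ 2))) := by
  unfold pform
  refine Finset.sum_congr rfl fun a _ => ?_
  rw [wedge3_eq_T]
  rfl

theorem chern111_eq (Θ : Fin n → Fin n → Matrix (Fin r) (Fin r) ℂ) (v : Fin 3 → Fin n → ℂ) :
    chern111 Θ v = pform Θ v 1 := by
  rw [pform_T]
  have h := sum_a (fun x y z => T (entf Θ v x x) (entf Θ v y y) (entf Θ v z z))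
  simp only [Equiv.Perm.coe_one, id]
  rw [h]
  unfold chern111
  rw [wedge3_eq_T]
  simp only [Matrix.cons_val_zero, Matrix.cons_val_one, Matrix.cons_val]
  rw [c1form_eq, T_sum1]
  refine Finset.sum_congr rfl fun x _ => ?_
  rw [T_sum2]
  refine Finset.sum_congr rfl fun y _ => ?_
  rw [T_sum3]

theorem chern12_eq (Θ : Fin n → Fin n → Matrix (Fin r) (Fin r) ℂ) (v : Fin 3 → Fin n → ℂ) :
    chern12 Θ v = (1 / 2) * (pform Θ v 1 - pform Θ v (Equiv.swap 1 2)) := by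
  rw [pform_T, pform_T]
  have h := sum_a (fun x y z => T (entf Θ v x x) (entf Θ v y y) (entf Θ v z z))
  have h2 := sum_a (fun x y z => T (entf Θ v x x) (entf Θ v y z) (entf Θ v z y))
  have s0 : (Equiv.swap 1 2 : Equiv.Perm (Fin 3)) 0 = 0 := by decide
  have s1 : (Equiv.swap 1 2 : Equiv.Perm (Fin 3)) 1 = 2 := by decide
  have s2 : (Equiv.swap 1 2 : Equiv.Perm (Fin 3)) 2 = 1 := by decide
  simp only [Equiv.Perm.coe_one, id, s0, s1, s2]
  rw [h, h2]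
  unfold chern12
  congr 1
  simp only [wedge3_eq_T, Matrix.cons_val_zero, Matrix.cons_val_one, Matrix.cons_val,
    c1form_eq, T_sum1]
  rw [← Finset.sum_sub_distrib]
  simp only [← Finset.sum_sub_distrib]
  calc ∑ α, ∑ β, ∑ x, (T (entf Θ v x x) (entf Θ v α α) (entf Θ v β β) -
        T (entf Θ v x x) (entf Θ v α β) (entf Θ v β α))
      = ∑ α, ∑ x, ∑ β, (T (entf Θ v x x) (entf Θ v α α) (entf Θ v β β) -
        T (entf Θ v x x) (entf Θ v α β) (entf Θ v β α)) :=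
        Finset.sum_congr rfl fun α _ => Finset.sum_comm
    _ = ∑ x, ∑ α, ∑ β, (T (entf Θ v x x) (entf Θ v α α) (entf Θ v β β) -
        T (entf Θ v x x) (entf Θ v α β) (entf Θ v β α)) := Finset.sum_comm

end H864R3
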