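import Mathlib

set_option autoImplicit false

namespace H864R3

open Matrix Finset
open scoped ComplexOrder

/-- 31 vectors of `ℤ[i]^3` forming (with the weights `W`) a cubature rule for the moments of degree
`(3,3)` on the unit sphere of `ℂ^3`. -/
def X : Fin 31 → Fin 3 → GaussianInt :=
  ![![⟨1, 0⟩, ⟨0, 0⟩, ⟨0, 0⟩],
  ![⟨0, 0⟩, ⟨1, 0⟩, ⟨0, 0⟩],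
  ![⟨0, 0⟩, ⟨0, 0⟩, ⟨1, 0⟩],
  ![⟨1, 0⟩, ⟨1, 0⟩, ⟨0, 0⟩],
  ![⟨1, 0⟩, ⟨0, 1⟩, ⟨0, 0⟩],
  ![⟨1, 0⟩, ⟨-1, 0⟩, ⟨0, 0⟩],
  ![⟨1, 0⟩, ⟨0, -1⟩, ⟨0, 0⟩],
  ![⟨1, 0⟩, ⟨0, 0⟩, ⟨1, 0⟩],
  ![⟨1, 0⟩, ⟨0, 0⟩, ⟨0, 1⟩],
  ![⟨1, 0⟩, ⟨0, 0⟩, ⟨-1, 0⟩],
  ![⟨1, 0⟩, ⟨0, 0⟩, ⟨0, -1⟩],
  ![⟨0, 0⟩, ⟨1, 0⟩, ⟨1, 0⟩],
  ![⟨0, 0⟩, ⟨1, 0⟩, ⟨0, 1⟩],
  ![⟨0, 0⟩, ⟨1, 0⟩, ⟨-1, 0⟩],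
  ![⟨0, 0⟩, ⟨1, 0⟩, ⟨0, -1⟩],
  ![⟨1, 0⟩, ⟨1, 0⟩, ⟨1, 0⟩],
  ![⟨1, 0⟩, ⟨1, 0⟩, ⟨0, 1⟩],
  ![⟨1, 0⟩, ⟨1, 0⟩, ⟨-1, 0⟩],
  ![⟨1, 0⟩, ⟨1, 0⟩, ⟨0, -1⟩],
  ![⟨1, 0⟩, ⟨0, 1⟩, ⟨1, 0⟩],
  ![⟨1, 0⟩, ⟨0, 1⟩, ⟨0, 1⟩],
  ![⟨1, 0⟩, ⟨0, 1⟩, ⟨-1, 0⟩],
  ![⟨1, 0⟩, ⟨0, 1⟩, ⟨0, -1⟩],
  ![⟨1, 0⟩, ⟨-1, 0⟩, ⟨1, 0⟩],
  ![⟨1, 0⟩, ⟨-1, 0⟩, ⟨0, 1⟩],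
  ![⟨1, 0⟩, ⟨-1, 0⟩, ⟨-1, 0⟩],
  ![⟨1, 0⟩, ⟨-1, 0⟩, ⟨0, -1⟩],
  ![⟨1, 0⟩, ⟨0, -1⟩, ⟨1, 0⟩],
  ![⟨1, 0⟩, ⟨0, -1⟩, ⟨0, 1⟩],
  ![⟨1, 0⟩, ⟨0, -1⟩, ⟨-1, 0⟩],
  ![⟨1, 0⟩, ⟨0, -1⟩, ⟨0, -1⟩]]

/-- The weights of the cubature rule. -/
def W : Fin 31 → ℤ := ![48, 48, 48, 4, 4, 4, 4, 4, 4, 4, 4, 4, 4, 4, 4, 1, 1, 1, 1, 1, 1, 1, 1, 1, 1, 1, 1, 1, 1, 1, 1]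

/-- `1` if the proposition holds and `0` otherwise. -/
def ind (p : Prop) [Decidable p] : ℤ := if p then 1 else 0

/-- The number of permutations carrying `(i,k,m)` to `(j,l,n)`. -/
def perm3 (i k m j l n : Fin 3) : ℤ :=
  ind (j = i ∧ l = k ∧ n = m) + ind (j = i ∧ l = m ∧ n = k) + ind (j = k ∧ l = i ∧ n = m) +
  ind (j = k ∧ l = m ∧ n = i) + ind (j = m ∧ l = i ∧ n = k) + ind (j = m ∧ l = k ∧ n = i)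

theorem moment (i k m j l n : Fin 3) :
    (∑ s : Fin 31, (W s : GaussianInt) * (X s i * X s k * X s m * (star (X s j) * star (X s l) *
      star (X s n)))) = ((16 * perm3 i k m j l n : ℤ) : GaussianInt) := by
  revert i k m j l n
  decide +kernel

end H864R3
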