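import Pool.Agent.H864R3.Degree3

set_option autoImplicit false

namespace H864R3

open Matrix Finset
open scoped ComplexOrder

variable {n r : ℕ}

theorem tr_id (M : Fin 3 → Matrix (Fin r) (Fin r) ℂ) :
    ∑ a : Fin 3 → Fin r, ∏ s : Fin 3, M s (a s) (a ((1 : Equiv.Perm (Fin 3)) s)) =
      (M 0).trace * (M 1).trace * (M 2).trace := by
  have h := sum_a (fun x y z => M 0 x x * M 1 y y * M 2 z z)
  simp only [Fin.prod_univ_three, Equiv.Perm.coe_one, id]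
  rw [h]
  simp only [Matrix.trace, Matrix.diag_apply]
  rw [Finset.sum_mul_sum, Finset.sum_mul]
  refine Finset.sum_congr rfl fun x _ => ?_
  rw [Finset.sum_mul]
  exact Finset.sum_congr rfl fun y _ => by rw [Finset.mul_sum]

theorem tr_12 (M : Fin 3 → Matrix (Fin r) (Fin r) ℂ) :
    ∑ a : Fin 3 → Fin r, ∏ s : Fin 3, M s (a s) (a ((Equiv.swap 1 2 : Equiv.Perm (Fin 3)) s)) =
      (M 1 * M 2).trace * (M 0).trace := by
  have h := sum_a (fun x y z => M 0 x x * M 1 y z * M 2 z y)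
  have s0 : (Equiv.swap 1 2 : Equiv.Perm (Fin 3)) 0 = 0 := by decide
  have s1 : (Equiv.swap 1 2 : Equiv.Perm (Fin 3)) 1 = 2 := by decide
  have s2 : (Equiv.swap 1 2 : Equiv.Perm (Fin 3)) 2 = 1 := by decide
  simp only [Fin.prod_univ_three, s0, s1, s2]
  rw [h]
  simp only [Matrix.trace, Matrix.diag_apply, Matrix.mul_apply]
  rw [mul_comm, Finset.sum_mul]
  refine Finset.sum_congr rfl fun x _ => ?_
  rw [Finset.mul_sum]
  refine Finset.sum_congr rfl fun y _ => ?_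
  rw [Finset.mul_sum]
  exact Finset.sum_congr rfl fun z _ => by ring

theorem tr_cyc (M : Fin 3 → Matrix (Fin r) (Fin r) ℂ) :
    ∑ a : Fin 3 → Fin r, ∏ s : Fin 3, M s (a s) (a (cyc s)) = (M 0 * M 1 * M 2).trace := by
  have h := sum_a (fun x y z => M 0 x y * M 1 y z * M 2 z x)
  obtain ⟨s0, s1, s2⟩ := cyc_val
  simp only [Fin.prod_univ_three, s0, s1, s2]
  rw [h]
  simp only [Matrix.trace, Matrix.diag_apply, Matrix.mul_apply, Finset.sum_mul]
  refine Finset.sum_congr rfl fun x _ => ?_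
  rw [Finset.sum_comm]

/-- `pform` in terms of the endomorphisms `Θ(v_k, v̄_l)`. -/
theorem pform_pull (Θ : Fin n → Fin n → Matrix (Fin r) (Fin r) ℂ) (v : Fin 3 → Fin n → ℂ)
    (ρ : Equiv.Perm (Fin 3)) : pform Θ v ρ = ∑ σ : Equiv.Perm (Fin 3), ∑ τ : Equiv.Perm (Fin 3),
      ((Equiv.Perm.sign σ : ℤ) : ℂ) * ((Equiv.Perm.sign τ : ℤ) : ℂ) *
        ∑ a : Fin 3 → Fin r, ∏ s : Fin 3, pull Θ v (σ s) (τ s) (a s) (a (ρ s)) := by
  unfold pform wedge3
  simp only [Finset.mul_sum, Matrix.of_apply]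
  rw [Finset.sum_comm]
  refine Finset.sum_congr rfl fun σ _ => ?_
  rw [Finset.sum_comm]

theorem pull_conj (Θ : Fin n → Fin n → Matrix (Fin r) (Fin r) ℂ) (v : Fin 3 → Fin n → ℂ)
    (G G' : Matrix (Fin r) (Fin r) ℂ) (k l : Fin 3) :
    pull (fun i j => G * Θ i j * G') v k l = G * pull Θ v k l * G' := by
  simp [pull, Finset.mul_sum, Finset.sum_mul]

theorem trace_conj' (G G' X : Matrix (Fin r) (Fin r) ℂ) (hG : G' * G = 1) :
    (G * X * G').trace = X.trace := by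
  rw [Matrix.trace_mul_comm, ← Matrix.mul_assoc, hG, Matrix.one_mul]

theorem mul_conj' (G G' X Y : Matrix (Fin r) (Fin r) ℂ) (hG : G' * G = 1) :
    G * X * G' * (G * Y * G') = G * (X * Y) * G' := by
  calc G * X * G' * (G * Y * G') = G * X * (G' * G) * Y * G' := by
        simp only [Matrix.mul_assoc]
    _ = G * (X * Y) * G' := by rw [hG]; simp only [Matrix.mul_one, Matrix.mul_assoc]

theorem pform_frame (Θ : Fin n → Fin n → Matrix (Fin r) (Fin r) ℂ) (v : Fin 3 → Fin n → ℂ)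
    (G G' : Matrix (Fin r) (Fin r) ℂ) (hG : G' * G = 1) :
    pform (fun i j => G * Θ i j * G') v 1 = pform Θ v 1 ∧
    pform (fun i j => G * Θ i j * G') v (Equiv.swap 1 2) = pform Θ v (Equiv.swap 1 2) ∧
    pform (fun i j => G * Θ i j * G') v cyc = pform Θ v cyc := by
  refine ⟨?_, ?_, ?_⟩
  · rw [pform_pull, pform_pull]
    refine Finset.sum_congr rfl fun σ _ => Finset.sum_congr rfl fun τ _ => ?_
    rw [tr_id (fun s => pull (fun i j => G * Θ i j * G') v (σ s) (τ s)),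
      tr_id (fun s => pull Θ v (σ s) (τ s))]
    simp only [pull_conj, trace_conj' _ _ _ hG]
  · rw [pform_pull, pform_pull]
    refine Finset.sum_congr rfl fun σ _ => Finset.sum_congr rfl fun τ _ => ?_
    rw [tr_12 (fun s => pull (fun i j => G * Θ i j * G') v (σ s) (τ s)),
      tr_12 (fun s => pull Θ v (σ s) (τ s))]
    simp only [pull_conj, mul_conj' _ _ _ _ hG, trace_conj' _ _ _ hG]
  · rw [pform_pull, pform_pull]
    refine Finset.sum_congr rfl fun σ _ => Finset.sum_congr rfl fun τ _ => ?_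
    rw [tr_cyc (fun s => pull (fun i j => G * Θ i j * G') v (σ s) (τ s)),
      tr_cyc (fun s => pull Θ v (σ s) (τ s))]
    simp only [pull_conj, mul_conj' _ _ _ _ hG, trace_conj' _ _ _ hG]

/-- `S_{(1,1,1)} = c_1^3 - 2 c_1 c_2 + c_3`. -/
noncomputable def S111 (Θ : Fin n → Fin n → Matrix (Fin r) (Fin r) ℂ)
    (v : Fin 3 → Fin n → ℂ) : ℂ := chern111 Θ v - 2 * chern12 Θ v + chern3 Θ v

/-- `S_{(2,1)} = c_1 c_2 - c_3`. -/
noncomputable def S21 (Θ : Fin n → Fin n → Matrix (Fin r) (Fin r) ℂ)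
    (v : Fin 3 → Fin n → ℂ) : ℂ := chern12 Θ v - chern3 Θ v

/-- `S_{(3)} = c_3`. -/
noncomputable def S3 (Θ : Fin n → Fin n → Matrix (Fin r) (Fin r) ℂ)
    (v : Fin 3 → Fin n → ℂ) : ℂ := chern3 Θ v

theorem S111_eq (Θ : Fin n → Fin n → Matrix (Fin r) (Fin r) ℂ) (v : Fin 3 → Fin n → ℂ) :
    S111 Θ v = (1 / 6) * ∑ ρ : Equiv.Perm (Fin 3), pform Θ v ρ := by
  unfold S111
  rw [chern111_eq, chern12_eq, chern3_pform, sum_pform]
  ring

theorem S21_eq (Θ : Fin n → Fin n → Matrix (Fin r) (Fin r) ℂ) (v : Fin 3 → Fin n → ℂ) :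
    S21 Θ v = (1 / 3) * (pform Θ v 1 - pform Θ v cyc) := by
  unfold S21
  rw [chern12_eq, chern3_pform]
  ring

theorem S21_avg (Θ : Fin n → Fin n → Matrix (Fin r) (Fin r) ℂ) (v : Fin 3 → Fin n → ℂ) :
    pform Θ v 1 - pform Θ v cyc =
      ∑ f : Fin r → Fin 9, ∑ g : Fin r → Fin 9, wt f * wt g * Phi6 (Bf Θ v (rv f) (rv g)) := by
  simp only [Phi6_Bf, mul_sub, Finset.sum_sub_distrib]
  rw [avgA, avgB, pform_01]
  ring

theorem S_frame (Θ : Fin n → Fin n → Matrix (Fin r) (Fin r) ℂ) (v : Fin 3 → Fin n → ℂ)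
    (G G' : Matrix (Fin r) (Fin r) ℂ) (hG : G' * G = 1) :
    S111 (fun i j => G * Θ i j * G') v = S111 Θ v ∧
    S21 (fun i j => G * Θ i j * G') v = S21 Θ v := by
  obtain ⟨h1, h2, h3⟩ := pform_frame Θ v G G' hG
  constructor
  · rw [S111_eq, S111_eq, sum_pform, sum_pform, h1, h2, h3]
  · rw [S21_eq, S21_eq, h1, h3]

theorem third_pos : (0 : ℂ) < 1 / 3 := by
  have : ((1 : ℂ) / 3) = (((1 : ℝ) / 3 : ℝ) : ℂ) := by push_cast; rfl
  rw [this]
  exact_mod_cast (by norm_num : (0 : ℝ) < 1 / 3)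

theorem S111_nonneg_one (Θ : Fin n → Fin n → Matrix (Fin r) (Fin r) ℂ)
    (hΘ : ∀ ξ, (ev Θ ξ).PosSemidef) (v : Fin 3 → Fin n → ℂ) : 0 ≤ S111 Θ v := by
  rw [S111_eq, segre_avg]
  exact mul_nonneg sixth_pos.le (Finset.sum_nonneg fun f _ =>
    mul_nonneg (wt_pos f).le (Cf_nonneg Θ hΘ v _))

theorem S21_nonneg_one (Θ : Fin n → Fin n → Matrix (Fin r) (Fin r) ℂ)
    (hΘ : ∀ ξ, (ev Θ ξ).PosSemidef) (v : Fin 3 → Fin n → ℂ) : 0 ≤ S21 Θ v := by
  rw [S21_eq, S21_avg]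
  exact mul_nonneg third_pos.le (Finset.sum_nonneg fun f _ => Finset.sum_nonneg fun g _ =>
    mul_nonneg (mul_nonneg (wt_pos f).le (wt_pos g).le) (Bf_nonneg Θ hΘ v _ _))

theorem semi_of_pos {Θ : Fin n → Fin n → Matrix (Fin r) (Fin r) ℂ}
    (hΘ : ∀ ξ, ξ ≠ 0 → (ev Θ ξ).PosDef) : ∀ ξ, (ev Θ ξ).PosSemidef := by
  intro ξ
  by_cases hξ : ξ = 0
  · rw [hξ, ev_zero]; exact Matrix.PosSemidef.zero
  · exact (hΘ ξ hξ).posSemidef

theorem z9_zero : z9 0 = 0 := by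
  simp [z9, Z9]
  rfl

theorem z9_one : z9 1 = 1 := by
  have : Z9 1 = 1 := by decide
  rw [z9, this, map_one]

theorem S111_pos_one (hr : 1 ≤ r) (Θ : Fin n → Fin n → Matrix (Fin r) (Fin r) ℂ)
    (hΘ : ∀ ξ, ξ ≠ 0 → (ev Θ ξ).PosDef) (v : Fin 3 → Fin n → ℂ) (hv : LinearIndependent ℂ v) :
    0 < S111 Θ v := by
  rw [S111_eq, segre_avg]
  refine mul_pos sixth_pos ?_
  refine Finset.sum_pos' (fun f _ => mul_nonneg (wt_pos f).le
    (Cf_nonneg Θ (semi_of_pos hΘ) v _)) ⟨fun _ => 1, Finset.mem_univ _, ?_⟩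
  refine mul_pos (wt_pos _) (Cf_pos Θ hΘ v hv _ ?_)
  intro h0
  have := congrFun h0 ⟨0, hr⟩
  simp [rv, z9_one] at this

theorem S21_pos_one (hr : 2 ≤ r) (Θ : Fin n → Fin n → Matrix (Fin r) (Fin r) ℂ)
    (hΘ : ∀ ξ, ξ ≠ 0 → (ev Θ ξ).PosDef) (v : Fin 3 → Fin n → ℂ) (hv : LinearIndependent ℂ v) :
    0 < S21 Θ v := by
  rw [S21_eq, S21_avg]
  refine mul_pos third_pos ?_
  have hn : ∀ f g : Fin r → Fin 9, 0 ≤ wt f * wt g * Phi6 (Bf Θ v (rv f) (rv g)) := fun f g =>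
    mul_nonneg (mul_nonneg (wt_pos f).le (wt_pos g).le) (Bf_nonneg Θ (semi_of_pos hΘ) v _ _)
  set i0 : Fin r := ⟨0, by omega⟩ with hi0
  set i1 : Fin r := ⟨1, by omega⟩ with hi1
  have h01 : i0 ≠ i1 := by
    intro h
    have := congrArg Fin.val h
    simp [hi0, hi1] at this
  refine Finset.sum_pos' (fun f _ => Finset.sum_nonneg fun g _ => hn f g)
    ⟨fun c => if c = i0 then 1 else 0, Finset.mem_univ _, ?_⟩
  refine Finset.sum_pos' (fun g _ => hn _ g) ⟨fun c => if c = i1 then 1 else 0,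
    Finset.mem_univ _, ?_⟩
  refine mul_pos (mul_pos (wt_pos _) (wt_pos _)) (Bf_pos Θ hΘ v hv _ _ ?_)
  rw [LinearIndependent.pair_iff]
  intro s t hst
  have e0 := congrFun hst i0
  have e1 := congrFun hst i1
  simp [rv, z9_one, z9_zero, h01] at e0
  simp [rv, z9_one, z9_zero, h01.symm] at e1
  exact ⟨e0, e1⟩

/-- **Griffiths' conjecture in degree three**, nonnegativity. -/
theorem degree3_nonneg (h : Matrix (Fin r) (Fin r) ℂ) (hh : h.PosDef)
    (Θ : Fin n → Fin n → Matrix (Fin r) (Fin r) ℂ) (hΘ : GriffithsSemipos h Θ)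
    (v : Fin 3 → Fin n → ℂ) : 0 ≤ S111 Θ v ∧ 0 ≤ S21 Θ v ∧ 0 ≤ S3 Θ v := by
  refine ⟨?_, ?_, chern3_nonneg h hh Θ hΘ v⟩ <;>
  · obtain ⟨G, hG⟩ := exists_factor' hh.posSemidef
    have hGd : IsUnit G.det := by
      rw [isUnit_iff_ne_zero]
      intro h0
      have h1 := hh.det_pos
      rw [hG, Matrix.det_mul, h0, mul_zero] at h1
      exact lt_irrefl _ h1
    have hGG : G⁻¹ * G = 1 := Matrix.nonsing_inv_mul _ hGd
    have hGG' : G * G⁻¹ = 1 := Matrix.mul_nonsing_inv _ hGd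
    obtain ⟨f1, f2⟩ := S_frame Θ v G G⁻¹ hGG
    have hΘ' : ∀ ξ, (ev (fun i j => G * Θ i j * G⁻¹) ξ).PosSemidef := by
      intro ξ
      rw [ev_conj]
      have e : G * ev Θ ξ * G⁻¹ = (G⁻¹)ᴴ * (h * ev Θ ξ) * G⁻¹ := by
        rw [hG]
        have : (G⁻¹)ᴴ * Gᴴ = 1 := by
          rw [← Matrix.conjTranspose_mul, hGG', Matrix.conjTranspose_one]
        calc G * ev Θ ξ * G⁻¹ = ((G⁻¹)ᴴ * Gᴴ) * (G * ev Θ ξ * G⁻¹) := by
              rw [this, Matrix.one_mul]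
          _ = _ := by simp only [Matrix.mul_assoc]
      rw [e]
      exact (hΘ ξ).conjTranspose_mul_mul_same _
    first
    | (rw [← f1]; exact S111_nonneg_one _ hΘ' v)
    | (rw [← f2]; exact S21_nonneg_one _ hΘ' v)

/-- **Griffiths' conjecture in degree three**, strict positivity. -/
theorem degree3_pos (h : Matrix (Fin r) (Fin r) ℂ) (hh : h.PosDef)
    (Θ : Fin n → Fin n → Matrix (Fin r) (Fin r) ℂ) (hΘ : GriffithsPos h Θ)
    (v : Fin 3 → Fin n → ℂ) (hv : LinearIndependent ℂ v) :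
    (1 ≤ r → 0 < S111 Θ v) ∧ (2 ≤ r → 0 < S21 Θ v) ∧ (3 ≤ r → 0 < S3 Θ v) := by
  refine ⟨?_, ?_, fun hr => chern3_pos hr h hh Θ hΘ v hv⟩ <;>
  · intro hr
    obtain ⟨G, hG⟩ := exists_factor' hh.posSemidef
    have hGd : IsUnit G.det := by
      rw [isUnit_iff_ne_zero]
      intro h0
      have h1 := hh.det_pos
      rw [hG, Matrix.det_mul, h0, mul_zero] at h1
      exact lt_irrefl _ h1
    have hGG : G⁻¹ * G = 1 := Matrix.nonsing_inv_mul _ hGd
    have hGG' : G * G⁻¹ = 1 := Matrix.mul_nonsing_inv _ hGd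
    have hGu : IsUnit G⁻¹ := by
      rw [Matrix.isUnit_iff_isUnit_det]
      exact Matrix.isUnit_nonsing_inv_det _ hGd
    obtain ⟨f1, f2⟩ := S_frame Θ v G G⁻¹ hGG
    have hΘ' : ∀ ξ, ξ ≠ 0 → (ev (fun i j => G * Θ i j * G⁻¹) ξ).PosDef := by
      intro ξ hξ
      rw [ev_conj]
      have e : G * ev Θ ξ * G⁻¹ = (G⁻¹)ᴴ * (h * ev Θ ξ) * G⁻¹ := by
        rw [hG]
        have : (G⁻¹)ᴴ * Gᴴ = 1 := by
          rw [← Matrix.conjTranspose_mul, hGG', Matrix.conjTranspose_one]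
        calc G * ev Θ ξ * G⁻¹ = ((G⁻¹)ᴴ * Gᴴ) * (G * ev Θ ξ * G⁻¹) := by
              rw [this, Matrix.one_mul]
          _ = _ := by simp only [Matrix.mul_assoc]
      rw [e]
      exact (hΘ ξ hξ).conjTranspose_mul_mul_same (Matrix.mulVec_injective_of_isUnit hGu)
    first
    | (rw [← f1]; exact S111_pos_one hr _ hΘ' v hv)
    | (rw [← f2]; exact S21_pos_one hr _ hΘ' v hv)

end H864R3
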