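import Mathlib

set_option autoImplicit false

namespace H864R3

open Matrix Finset
open scoped ComplexOrder

/-- Schur's inequality (degree one), ordered case. -/
theorem schur_aux (a b c : ℝ) (hab : b ≤ a) (hbc : c ≤ b) (hc : 0 ≤ c) :
    0 ≤ a * (a - b) * (a - c) + b * (b - a) * (b - c) + c * (c - a) * (c - b) := by
  have h1 : 0 ≤ a - b := by linarith
  have h2 : 0 ≤ b - c := by linarith
  have h3 : 0 ≤ a - c := by linarith
  nlinarith [mul_nonneg (mul_nonneg h1 h1) (by linarith : (0 : ℝ) ≤ a + b - c),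
    mul_nonneg hc (mul_nonneg h3 h2)]

theorem schur (a b c : ℝ) (ha : 0 ≤ a) (hb : 0 ≤ b) (hc : 0 ≤ c) :
    0 ≤ a * (a - b) * (a - c) + b * (b - a) * (b - c) + c * (c - a) * (c - b) := by
  rcases le_total a b with h1 | h1 <;> rcases le_total b c with h2 | h2 <;>
    rcases le_total a c with h3 | h3
  · have := schur_aux c b a h2 h1 ha; linarith
  · have := schur_aux c b a h2 h1 ha; linarith
  · have := schur_aux b c a h2 h3 ha; linarith
  · have := schur_aux b a c h1 h3 hc; linarith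
  · have := schur_aux c a b h3 h1 hb; linarith
  · have := schur_aux a c b h3 h2 hb; linarith
  · have := schur_aux a b c h1 h2 hc; linarith
  · have := schur_aux a b c h1 h2 hc; linarith

/-- The sum of the principal `2 × 2` minors. -/
def e2 (R : Matrix (Fin 3) (Fin 3) ℂ) : ℂ :=
  (R 0 0 * R 1 1 - R 0 1 * R 1 0) + (R 0 0 * R 2 2 - R 0 2 * R 2 0) +
    (R 1 1 * R 2 2 - R 1 2 * R 2 1)

theorem e2_eq (R : Matrix (Fin 3) (Fin 3) ℂ) :
    2 * e2 R = R.trace ^ 2 - (R * R).trace := by
  simp [e2, Matrix.trace, Matrix.mul_apply, Fin.sum_univ_three]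
  ring

theorem trace_sq {R : Matrix (Fin 3) (Fin 3) ℂ} (hR : R.IsHermitian) :
    (R * R).trace = ((∑ i, hR.eigenvalues i ^ 2 : ℝ) : ℂ) := by
  have h := hR.spectral_theorem
  have h2 : R * R = Unitary.conjStarAlgAut ℂ _ hR.eigenvectorUnitary
      (diagonal (RCLike.ofReal ∘ hR.eigenvalues) * diagonal (RCLike.ofReal ∘ hR.eigenvalues)) := by
    rw [map_mul, ← h]
  rw [h2, Unitary.conjStarAlgAut_apply, Matrix.trace_mul_cycle]
  simp [Matrix.trace, pow_two]

theorem pointwise {R : Matrix (Fin 3) (Fin 3) ℂ} (hR : R.PosDef) :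
    0 < R.trace ^ 3 - 4 * (R.trace * e2 R) + 10 * R.det := by
  have hH := hR.isHermitian
  have hpos := hR.eigenvalues_pos
  have ht : R.trace = ((∑ i, hH.eigenvalues i : ℝ) : ℂ) := by
    rw [hH.trace_eq_sum_eigenvalues]; simp
  have hd : R.det = ((∏ i, hH.eigenvalues i : ℝ) : ℂ) := by
    rw [hH.det_eq_prod_eigenvalues]; simp
  have hs := trace_sq hH
  have he : e2 R = ((((∑ i, hH.eigenvalues i) ^ 2 - ∑ i, hH.eigenvalues i ^ 2) / 2 : ℝ) : ℂ) := by
    have h2 := e2_eq R
    rw [ht, hs] at h2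
    have : e2 R = (2 * e2 R) / 2 := by ring
    rw [this, h2]
    push_cast
    ring
  rw [ht, hd, he]
  simp only [Fin.sum_univ_three, Fin.prod_univ_three]
  set a := hH.eigenvalues 0
  set b := hH.eigenvalues 1
  set c := hH.eigenvalues 2
  have ha : 0 < a := hpos 0
  have hb : 0 < b := hpos 1
  have hc : 0 < c := hpos 2
  have hS := schur a b c ha.le hb.le hc.le
  have habc : 0 < a * b * c := by positivity
  have key : 0 < (a + b + c) ^ 3 - 4 * ((a + b + c) * (((a + b + c) ^ 2 -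
      (a ^ 2 + b ^ 2 + c ^ 2)) / 2)) + 10 * (a * b * c) := by nlinarith
  exact_mod_cast key

end H864R3
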