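import Pool.Agent.H864R3.Core
import Pool.Agent.H864R3.Ineq

set_option autoImplicit false

namespace H864R3

open Matrix Finset
open scoped ComplexOrder

/-- `∑ x_i conj(x_j) B_ij` at the `s`-th vector of the design. -/
noncomputable def HX (B : Fin 3 → Fin 3 → Matrix (Fin 3) (Fin 3) ℂ) (s : Fin 31) :
    Matrix (Fin 3) (Fin 3) ℂ :=
  ∑ i : Fin 3, ∑ j : Fin 3, (x s i * star (x s j)) • B i j

/-- The `(a,b)` entry of the family, as a function of the upper indices. -/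
def ent (B : Fin 3 → Fin 3 → Matrix (Fin 3) (Fin 3) ℂ) (a b : Fin 3) : Fin 3 × Fin 3 → ℂ :=
  fun e => B e.1 e.2 a b

theorem Rf_ent (B : Fin 3 → Fin 3 → Matrix (Fin 3) (Fin 3) ℂ) (a b : Fin 3) (s : Fin 31) :
    Rf (ent B a b) s = HX B s a b := by
  simp [Rf, ent, HX, Matrix.sum_apply, Fintype.sum_prod_type]

theorem trf_ent (B : Fin 3 → Fin 3 → Matrix (Fin 3) (Fin 3) ℂ) (a b : Fin 3) :
    trf (ent B a b) = (∑ i, B i i) a b := by
  simp [trf, ent, Fin.sum_univ_three, Matrix.add_apply]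

/-- Six times the signed sum of mixed discriminants. -/
def Phi6 (B : Fin 3 → Fin 3 → Matrix (Fin 3) (Fin 3) ℂ) : ℂ :=
  ∑ σ : Equiv.Perm (Fin 3), ((Equiv.Perm.sign σ : ℤ) : ℂ) *
    ∑ α : Equiv.Perm (Fin 3), ∑ ρ : Equiv.Perm (Fin 3),
      ((Equiv.Perm.sign α : ℤ) : ℂ) * ((Equiv.Perm.sign ρ : ℤ) : ℂ) *
        ∏ k : Fin 3, B k (σ k) (α k) (ρ k)

theorem Phi6_eq (B : Fin 3 → Fin 3 → Matrix (Fin 3) (Fin 3) ℂ) :
    Phi6 B = ∑ τ : Equiv.Perm (Fin 3), ((Equiv.Perm.sign τ : ℤ) : ℂ) *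
      DV (ent B 0 (τ 0)) (ent B 1 (τ 1)) (ent B 2 (τ 2)) := by
  unfold Phi6 DV
  simp only [sum_perm]
  simp [ent, Fin.prod_univ_three, Equiv.swap_apply_def]
  ring

theorem Phi6_design (B : Fin 3 → Fin 3 → Matrix (Fin 3) (Fin 3) ℂ)
    (h2 : (∑ i : Fin 3, B i i) = (3 : ℂ) • (1 : Matrix (Fin 3) (Fin 3) ℂ)) :
    160 * Phi6 B = ∑ s, ((W s : ℤ) : ℂ) * (10 * (HX B s).det -
      12 * (Rf idf s * e2 (HX B s)) + 27 * Rf idf s ^ 3) := by
  rw [Phi6_eq, Finset.mul_sum]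
  have : ∀ τ : Equiv.Perm (Fin 3), 160 * (((Equiv.Perm.sign τ : ℤ) : ℂ) *
      DV (ent B 0 (τ 0)) (ent B 1 (τ 1)) (ent B 2 (τ 2))) =
      ((Equiv.Perm.sign τ : ℤ) : ℂ) * (160 *
      DV (ent B 0 (τ 0)) (ent B 1 (τ 1)) (ent B 2 (τ 2))) := by intro τ; ring
  rw [Finset.sum_congr rfl fun τ _ => this τ]
  simp only [main_identity, Rf_ent, trf_ent, h2]
  simp only [Finset.mul_sum]
  rw [Finset.sum_comm]
  refine Finset.sum_congr rfl fun s _ => ?_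
  rw [sum_perm]
  simp [Matrix.det_fin_three, e2, Equiv.swap_apply_def]
  ring


theorem X_ne (s : Fin 31) : X s ≠ 0 := by
  revert s
  decide +kernel

theorem W_pos (s : Fin 31) : 0 < W s := by
  revert s
  decide +kernel

theorem x_ne (s : Fin 31) : x s ≠ 0 := by
  intro h
  apply X_ne s
  funext i
  have := congrFun h i
  simpa [x] using this

theorem trace_HX (B : Fin 3 → Fin 3 → Matrix (Fin 3) (Fin 3) ℂ)
    (h3 : ∀ i j : Fin 3, (B i j).trace = if i = j then (3 : ℂ) else 0) (s : Fin 31) :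
    (HX B s).trace = 3 * Rf idf s := by
  simp only [HX, Matrix.trace_sum, Matrix.trace_smul, h3, smul_eq_mul]
  simp [Rf, idf, Fintype.sum_prod_type, Fin.sum_univ_three]
  ring

/-- The case `r = 3` under the normalisations (ii), (iii). -/
theorem r3_pos (B : Fin 3 → Fin 3 → Matrix (Fin 3) (Fin 3) ℂ)
    (h1 : ∀ ξ : Fin 3 → ℂ, ξ ≠ 0 →
      (∑ i : Fin 3, ∑ j : Fin 3, (ξ i * star (ξ j)) • B i j).PosDef)
    (h2 : (∑ i : Fin 3, B i i) = (3 : ℂ) • (1 : Matrix (Fin 3) (Fin 3) ℂ))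
    (h3 : ∀ i j : Fin 3, (B i j).trace = if i = j then (3 : ℂ) else 0) :
    0 < Phi6 B := by
  have key : 0 < 160 * Phi6 B := by
    rw [Phi6_design B h2]
    refine Finset.sum_pos (fun s _ => ?_) ⟨0, Finset.mem_univ _⟩
    have hP : (HX B s).PosDef := h1 (x s) (x_ne s)
    have hp := pointwise hP
    rw [trace_HX B h3 s] at hp
    have e : (3 * Rf idf s) ^ 3 - 4 * (3 * Rf idf s * e2 (HX B s)) + 10 * (HX B s).det =
        10 * (HX B s).det - 12 * (Rf idf s * e2 (HX B s)) + 27 * Rf idf s ^ 3 := by ring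
    rw [e] at hp
    have hw : (0 : ℂ) < ((W s : ℤ) : ℂ) := by
      have := W_pos s
      exact_mod_cast this
    exact mul_pos hw hp
  have h160 : (0 : ℂ) < (160 : ℂ)⁻¹ := by
    rw [show ((160 : ℂ)⁻¹) = (((160 : ℝ)⁻¹ : ℝ) : ℂ) by push_cast; rfl]
    exact_mod_cast (by norm_num : (0 : ℝ) < (160 : ℝ)⁻¹)
  have e : Phi6 B = (160 : ℂ)⁻¹ * (160 * Phi6 B) := by
    rw [← mul_assoc, inv_mul_cancel₀ (by norm_num), one_mul]
  rw [e]
  exact mul_pos h160 key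

end H864R3
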