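import Pool.Agent.H864R3.Scaling

set_option autoImplicit false

namespace H864R3

open Matrix Finset
open scoped ComplexOrder

theorem form_zero (A : Fin 3 → Fin 3 → ℂ)
    (h : ∀ ξ : Fin 3 → ℂ, ∑ i, ∑ j, ξ i * star (ξ j) * A i j = 0) : ∀ i j, A i j = 0 := by
  have h0 := h ![1, 0, 0]
  have h1 := h ![0, 1, 0]
  have h2 := h ![0, 0, 1]
  have h01 := h ![1, 1, 0]
  have h02 := h ![1, 0, 1]
  have h12 := h ![0, 1, 1]
  have g01 := h ![1, Complex.I, 0]
  have g02 := h ![1, 0, Complex.I]
  have g12 := h ![0, 1, Complex.I]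
  simp [Fin.sum_univ_three] at h0 h1 h2 h01 h02 h12 g01 g02 g12
  have hI : Complex.I * Complex.I = -1 := Complex.I_mul_I
  intro i j
  fin_cases i <;> fin_cases j <;> simp only [Fin.zero_eta, Fin.mk_one, Fin.reduceFinMk]
  · exact h0
  · linear_combination (1 / 2) * (h01 - h0 - h1) + (1 / 2) * Complex.I * (g01 - h0 - h1) -
      (1 / 2) * (A 1 0 - A 0 1) * hI
  · linear_combination (1 / 2) * (h02 - h0 - h2) + (1 / 2) * Complex.I * (g02 - h0 - h2) -
      (1 / 2) * (A 2 0 - A 0 2) * hI
  · linear_combination (1 / 2) * (h01 - h0 - h1) - (1 / 2) * Complex.I * (g01 - h0 - h1) +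
      (1 / 2) * (A 1 0 - A 0 1) * hI
  · exact h1
  · linear_combination (1 / 2) * (h12 - h1 - h2) + (1 / 2) * Complex.I * (g12 - h1 - h2) -
      (1 / 2) * (A 2 1 - A 1 2) * hI
  · linear_combination (1 / 2) * (h02 - h0 - h2) - (1 / 2) * Complex.I * (g02 - h0 - h2) +
      (1 / 2) * (A 2 0 - A 0 2) * hI
  · linear_combination (1 / 2) * (h12 - h1 - h2) - (1 / 2) * Complex.I * (g12 - h1 - h2) +
      (1 / 2) * (A 2 1 - A 1 2) * hI
  · exact h2

theorem BP_herm {B : Fin 3 → Fin 3 → M3} (hB : BP B) (i j : Fin 3) : (B i j)ᴴ = B j i := by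
  have key : ∀ a b : Fin 3, ∀ i j, star (B j i b a) - B i j a b = 0 := by
    intro a b
    apply form_zero
    intro ξ
    by_cases hξ : ξ = 0
    · simp [hξ]
    have hH := (hB ξ hξ).isHermitian
    have he := congrFun (congrFun hH a) b
    simp only [Matrix.conjTranspose_apply, Matrix.sum_apply, Matrix.smul_apply, smul_eq_mul,
      star_sum, star_mul', star_star] at he
    have hs : ∑ i, ∑ j, star (ξ i) * ξ j * star (B i j b a) =
        ∑ i, ∑ j, ξ i * star (ξ j) * star (B j i b a) := by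
      rw [Finset.sum_comm]
      refine Finset.sum_congr rfl fun i _ => Finset.sum_congr rfl fun j _ => ?_
      ring
    rw [hs] at he
    simp only [mul_sub, Finset.sum_sub_distrib]
    rw [he, sub_self]
  ext a b
  have := key a b j i
  rw [Matrix.conjTranspose_apply]
  exact sub_eq_zero.mp this

theorem Hm_herm {B : Fin 3 → Fin 3 → M3} (hB : BP B) (X : M3) : Hm B Xᴴ = (Hm B X)ᴴ := by
  simp only [Hm, Matrix.conjTranspose_sum, Matrix.conjTranspose_smul, BP_herm hB,
    Matrix.conjTranspose_apply]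
  exact Finset.sum_comm

theorem lin_zero (a : ℝ) (k : ℝ → ℝ) (hk : Continuous k) (h : ∀ t : ℝ, 0 ≤ t * a + t ^ 2 * k t) :
    a = 0 := by
  have hc : Continuous fun t : ℝ => a + t * k t := by fun_prop
  have ht : Filter.Tendsto (fun t : ℝ => a + t * k t) (nhds 0) (nhds a) := by
    have := hc.tendsto 0
    simpa using this
  apply le_antisymm
  · have h2 := ht.mono_left (nhdsWithin_le_nhds (s := Set.Iio 0))
    refine le_of_tendsto h2 ?_
    filter_upwards [self_mem_nhdsWithin] with t ht0
    have hneg : t < 0 := ht0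
    have := h t
    nlinarith
  · have h2 := ht.mono_left (nhdsWithin_le_nhds (s := Set.Ioi 0))
    refine ge_of_tendsto h2 ?_
    filter_upwards [self_mem_nhdsWithin] with t ht0
    have hpos : 0 < t := ht0
    have := h t
    nlinarith

end H864R3
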