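import Pool.Agent.H864R3.Scal2

set_option autoImplicit false

namespace H864R3

open Matrix Finset
open scoped ComplexOrder

section factor

open scoped MatrixOrder Matrix.Norms.L2Operator

theorem exists_factor {A : M3} (hA : A.PosSemidef) : ∃ D : M3, A = Dᴴ * D := by
  obtain ⟨D, hD⟩ := CStarAlgebra.nonneg_iff_eq_star_mul_self.mp hA.nonneg
  exact ⟨D, hD⟩

end factor

/-- The squared Frobenius norm. -/
noncomputable def fro (C : M3) : ℝ := ∑ i, ∑ j, Complex.normSq (C i j)

theorem fro_nonneg (C : M3) : 0 ≤ fro C :=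
  Finset.sum_nonneg fun i _ => Finset.sum_nonneg fun j _ => Complex.normSq_nonneg _

theorem fro_pos {C : M3} (hC : C ≠ 0) : 0 < fro C := by
  rcases (fro_nonneg C).lt_or_eq with h | h
  · exact h
  · exfalso
    apply hC
    ext i j
    have h1 := (Finset.sum_eq_zero_iff_of_nonneg (fun i _ => Finset.sum_nonneg fun j _ =>
      Complex.normSq_nonneg (C i j))).mp h.symm i (Finset.mem_univ _)
    have h2 := (Finset.sum_eq_zero_iff_of_nonneg (fun j _ => Complex.normSq_nonneg (C i j))).mp h1 j
      (Finset.mem_univ _)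
    simpa using h2

theorem fro_smul (c : ℝ) (C : M3) : fro ((c : ℂ) • C) = c ^ 2 * fro C := by
  simp [fro, Finset.mul_sum, Complex.normSq_mul, pow_two]

theorem continuous_fro : Continuous fro := by
  unfold fro
  refine continuous_finsetSum _ fun i _ => continuous_finsetSum _ fun j _ => ?_
  exact Complex.continuous_normSq.comp (continuous_id.matrix_elem i j)

theorem isCompact_sphere : IsCompact {C : M3 | fro C = 1} := by
  have hbox : IsCompact (Set.univ.pi fun _ : Fin 3 => Set.univ.pi fun _ : Fin 3 =>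
      Metric.closedBall (0 : ℂ) 1) :=
    isCompact_univ_pi fun _ => isCompact_univ_pi fun _ => isCompact_closedBall _ _
  refine hbox.of_isClosed_subset (isClosed_eq continuous_fro continuous_const) ?_
  intro C hC
  simp only [Set.mem_pi, Set.mem_univ, forall_true_left, mem_closedBall_zero_iff]
  intro i j
  have h1 : Complex.normSq (C i j) ≤ 1 := by
    have hC' : fro C = 1 := hC
    rw [← hC']
    calc Complex.normSq (C i j) ≤ ∑ j, Complex.normSq (C i j) :=
          Finset.single_le_sum (f := fun j => Complex.normSq (C i j))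
            (fun j _ => Complex.normSq_nonneg _) (Finset.mem_univ j)
      _ ≤ fro C := Finset.single_le_sum (f := fun i => ∑ j, Complex.normSq (C i j))
            (fun i _ => Finset.sum_nonneg fun j _ => Complex.normSq_nonneg _) (Finset.mem_univ i)
  rw [Complex.normSq_eq_norm_sq] at h1
  nlinarith [norm_nonneg (C i j)]

/-- The functional which is maximised. -/
noncomputable def gf (B : Fin 3 → Fin 3 → M3) (C : M3) : ℝ :=
  Complex.normSq C.det / ((Hm B (C * Cᴴ)).det).re

theorem det_re_pos {B : Fin 3 → Fin 3 → M3} (hB : BP B) {C : M3} (hC : C ≠ 0) :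
    0 < ((Hm B (C * Cᴴ)).det).re := by
  have := (Hm_posDef hB hC).det_pos
  exact (Complex.lt_def.mp this).1

theorem det_im_zero {B : Fin 3 → Fin 3 → M3} (hB : BP B) {C : M3} (hC : C ≠ 0) :
    ((Hm B (C * Cᴴ)).det).im = 0 := by
  have := (Hm_posDef hB hC).det_pos
  exact (Complex.lt_def.mp this).2.symm

theorem gf_smul (B : Fin 3 → Fin 3 → M3) (c : ℝ) (hc : c ≠ 0) (C : M3) :
    gf B ((c : ℂ) • C) = gf B C := by
  unfold gf
  have h1 : ((c : ℂ) • C) * ((c : ℂ) • C)ᴴ = ((c ^ 2 : ℝ) : ℂ) • (C * Cᴴ) := by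
    rw [Matrix.conjTranspose_smul, Matrix.smul_mul, Matrix.mul_smul, smul_smul]
    congr 1
    simp [pow_two]
  rw [h1, Hm_smul, Matrix.det_smul, Matrix.det_smul, Fintype.card_fin, map_mul]
  have h2 : Complex.normSq ((c : ℂ) ^ 3) = c ^ 6 := by
    rw [← Complex.ofReal_pow, Complex.normSq_ofReal]; ring
  have h3 : ((((c ^ 2 : ℝ) : ℂ) ^ 3 * (Hm B (C * Cᴴ)).det)).re =
      c ^ 6 * ((Hm B (C * Cᴴ)).det).re := by
    rw [← Complex.ofReal_pow, Complex.re_ofReal_mul]; ring
  rw [h2, h3]
  have : c ^ 6 ≠ 0 := pow_ne_zero _ hc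
  field_simp

theorem continuous_Hm (B : Fin 3 → Fin 3 → M3) : Continuous fun C : M3 => Hm B (C * Cᴴ) := by
  unfold Hm
  have h : Continuous fun C : M3 => C * Cᴴ := by fun_prop
  exact continuous_finsetSum _ fun i _ => continuous_finsetSum _ fun j _ =>
    (h.matrix_elem i j).smul continuous_const

theorem exists_max {B : Fin 3 → Fin 3 → M3} (hB : BP B) :
    ∃ C0 : M3, C0.det ≠ 0 ∧ ∀ C : M3, C ≠ 0 → gf B C ≤ gf B C0 := by
  have hne : ∀ C : M3, fro C = 1 → C ≠ 0 := by
    rintro C hC rfl
    simp [fro] at hC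
  have hcont : ContinuousOn (gf B) {C : M3 | fro C = 1} := by
    unfold gf
    refine ContinuousOn.div ?_ ?_ ?_
    · exact (Complex.continuous_normSq.comp continuous_id.matrix_det).continuousOn
    · exact (Complex.continuous_re.comp (continuous_Hm B).matrix_det).continuousOn
    · intro C hC
      exact (det_re_pos hB (hne C hC)).ne'
  have hnorm : ∀ C : M3, C ≠ 0 → ∃ c : ℝ, c ≠ 0 ∧ fro ((c : ℂ) • C) = 1 := by
    intro C hC
    refine ⟨(Real.sqrt (fro C))⁻¹, inv_ne_zero (Real.sqrt_ne_zero'.mpr (fro_pos hC)), ?_⟩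
    rw [fro_smul, inv_pow, Real.sq_sqrt (fro_nonneg C)]
    exact inv_mul_cancel₀ (fro_pos hC).ne'
  obtain ⟨c1, hc1, hc1'⟩ := hnorm 1 one_ne_zero
  obtain ⟨C0, hC0, hmax⟩ := isCompact_sphere.exists_isMaxOn ⟨_, hc1'⟩ hcont
  have hle : ∀ C : M3, C ≠ 0 → gf B C ≤ gf B C0 := by
    intro C hC
    obtain ⟨c, hc, hc'⟩ := hnorm C hC
    rw [← gf_smul B c hc C]
    exact hmax hc'
  refine ⟨C0, ?_, hle⟩
  intro h0
  have h1 := hle 1 one_ne_zero
  unfold gf at h1
  rw [h0] at h1
  simp only [Matrix.det_one, map_one, map_zero, zero_div] at h1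
  have h2 := det_re_pos hB (one_ne_zero : (1 : M3) ≠ 0)
  have : 0 < 1 / ((Hm B ((1 : M3) * 1ᴴ)).det).re := by positivity
  linarith

/-- `det (1 + t N)` for `3 × 3` matrices. -/
theorem det_one_add (t : ℂ) (N : M3) :
    (1 + t • N).det = 1 + t * (N.trace + t * (e2 N + t * N.det)) := by
  simp [Matrix.det_fin_three, e2, Matrix.trace, Fin.sum_univ_three]
  ring

theorem exists_scaling {B : Fin 3 → Fin 3 → M3} (hB : BP B) :
    ∃ C D : M3, C.det ≠ 0 ∧ D.det ≠ 0 ∧ (∑ i, trD D (trC C B) i i) = 1 ∧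
      ∀ i j, (trD D (trC C B) i j).trace = if i = j then (1 : ℂ) else 0 := by
  obtain ⟨C0, hC0, hmax⟩ := exists_max hB
  have hC0' : C0 ≠ 0 := by rintro rfl; simp at hC0
  set X0 : M3 := Hm B (C0 * C0ᴴ) with hX0
  have hX0p : X0.PosDef := Hm_posDef hB hC0'
  obtain ⟨D, hD⟩ := exists_factor hX0p.inv.posSemidef
  have hdet : D.det ≠ 0 := by
    intro h
    have h1 := hX0p.inv.det_pos
    rw [hD, Matrix.det_mul, h, mul_zero] at h1
    exact lt_irrefl _ h1
  have hXu : IsUnit X0.det := isUnit_iff_ne_zero.mpr hX0p.det_pos.ne'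
  have hDu : IsUnit D.det := isUnit_iff_ne_zero.mpr hdet
  have hone : D * X0 * Dᴴ = 1 := by
    have h1 : X0⁻¹ * X0 = 1 := Matrix.nonsing_inv_mul _ hXu
    rw [hD] at h1
    -- (Dᴴ D) X0 = 1, so D X0 Dᴴ = 1
    have h2 : Dᴴ * (D * X0) = 1 := by rw [← Matrix.mul_assoc]; exact h1
    exact mul_eq_one_comm.mp h2
  set B' : Fin 3 → Fin 3 → M3 := trD D (trC C0 B) with hB'
  have hHm : ∀ X : M3, Hm B' X = D * Hm B (C0 * X * C0ᴴ) * Dᴴ := by
    intro X
    rw [hB', Hm_trD, Hm_trC]
  have hBP' : BP B' := BP_trD (BP_trC hB hC0) hdet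
  have hH1 : Hm B' 1 = 1 := by rw [hHm, Matrix.mul_one, ← hX0, hone]
  -- the optimality inequality
  have hopt : ∀ C : M3, Complex.normSq C.det ≤ ((Hm B' (C * Cᴴ)).det).re := by
    intro C
    by_cases hC : C = 0
    · subst hC; simp [Hm]
    have hCC : C0 * C ≠ 0 := by
      intro h
      apply hC
      have hu : IsUnit C0.det := isUnit_iff_ne_zero.mpr hC0
      have := congrArg (fun Y => C0⁻¹ * Y) h
      simpa [← Matrix.mul_assoc, Matrix.nonsing_inv_mul _ hu] using this
    have h1 := hmax (C0 * C) hCC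
    unfold gf at h1
    have hpos1 := det_re_pos hB hCC
    have hpos0 := det_re_pos hB hC0'
    have him1 := det_im_zero hB hCC
    have him0 := det_im_zero hB hC0'
    rw [div_le_div_iff₀ hpos1 hpos0, Matrix.det_mul, map_mul] at h1
    have hn0 : 0 < Complex.normSq C0.det := Complex.normSq_pos.mpr hC0
    have h2 : Complex.normSq C.det * ((Hm B (C0 * C0ᴴ)).det).re ≤
        ((Hm B (C0 * C * (C0 * C)ᴴ)).det).re := by
      have h3 : Complex.normSq C0.det * (Complex.normSq C.det * ((Hm B (C0 * C0ᴴ)).det).re) ≤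
          Complex.normSq C0.det * ((Hm B (C0 * C * (C0 * C)ᴴ)).det).re := by linarith
      exact le_of_mul_le_mul_left h3 hn0
    -- determinants
    have hd : Complex.normSq D.det * ((Hm B (C0 * C0ᴴ)).det).re = 1 := by
      have h4 := congrArg Matrix.det hone
      rw [Matrix.det_mul, Matrix.det_mul, Matrix.det_conjTranspose, Matrix.det_one] at h4
      have h5 : (D.det * star D.det) * X0.det = 1 := by rw [← h4]; ring
      have h6 : D.det * star D.det = ((Complex.normSq D.det : ℝ) : ℂ) := Complex.mul_conj _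
      rw [h6] at h5
      have h7 := congrArg Complex.re h5
      rw [Complex.re_ofReal_mul] at h7
      simpa using h7
    have he : ((Hm B' (C * Cᴴ)).det).re =
        Complex.normSq D.det * ((Hm B (C0 * C * (C0 * C)ᴴ)).det).re := by
      rw [hHm, Matrix.det_mul, Matrix.det_mul, Matrix.det_conjTranspose]
      have e1 : C0 * (C * Cᴴ) * C0ᴴ = C0 * C * (C0 * C)ᴴ := by
        rw [Matrix.conjTranspose_mul]; simp only [Matrix.mul_assoc]
      rw [e1]
      have h6 : D.det * star D.det = ((Complex.normSq D.det : ℝ) : ℂ) := Complex.mul_conj _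
      have h7 : D.det * (Hm B (C0 * C * (C0 * C)ᴴ)).det * star D.det =
          ((Complex.normSq D.det : ℝ) : ℂ) * (Hm B (C0 * C * (C0 * C)ᴴ)).det := by
        rw [← h6]; ring
      rw [h7, Complex.re_ofReal_mul]
    rw [he]
    have hnD : 0 ≤ Complex.normSq D.det := Complex.normSq_nonneg _
    calc Complex.normSq C.det = Complex.normSq D.det * (Complex.normSq C.det *
          ((Hm B (C0 * C0ᴴ)).det).re) := by rw [mul_left_comm, hd, mul_one]
      _ ≤ _ := mul_le_mul_of_nonneg_left h2 hnD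
  -- first order condition
  have hfirst : ∀ Z : M3, ((Hm B' (Z + Zᴴ)).trace).re = 2 * (Z.trace).re := by
    intro Z
    set M1 : M3 := Hm B' (Z + Zᴴ) with hM1
    set M2 : M3 := Hm B' (Z * Zᴴ) with hM2
    have hlin := lin_zero ((M1.trace).re - 2 * (Z.trace).re)
      (fun t : ℝ => (M2.trace + (e2 (M1 + (t : ℂ) • M2) + (t : ℂ) * (M1 + (t : ℂ) • M2).det)).re -
        (Complex.normSq (Z.trace + (t : ℂ) * (e2 Z + (t : ℂ) * Z.det)) +
          2 * (e2 Z + (t : ℂ) * Z.det).re)) ?_ ?_
    · linarith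
    · have hcm : Continuous fun t : ℝ => M1 + (t : ℂ) • M2 := by fun_prop
      have hce : Continuous fun t : ℝ => e2 (M1 + (t : ℂ) • M2) := by
        unfold e2
        have : ∀ i j : Fin 3, Continuous fun t : ℝ => (M1 + (t : ℂ) • M2) i j :=
          fun i j => hcm.matrix_elem i j
        exact ((((this 0 0).mul (this 1 1)).sub ((this 0 1).mul (this 1 0))).add
          (((this 0 0).mul (this 2 2)).sub ((this 0 2).mul (this 2 0)))).add
          (((this 1 1).mul (this 2 2)).sub ((this 1 2).mul (this 2 1)))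
      have hcd : Continuous fun t : ℝ => (M1 + (t : ℂ) • M2).det := hcm.matrix_det
      have hn : Continuous fun t : ℝ => Complex.normSq (Z.trace + (t : ℂ) * (e2 Z + (t : ℂ) * Z.det)) :=
        Complex.continuous_normSq.comp (by fun_prop)
      fun_prop
    · intro t
      have h := hopt (1 + (t : ℂ) • Z)
      have e1 : (1 + (t : ℂ) • Z) * (1 + (t : ℂ) • Z)ᴴ =
          1 + (t : ℂ) • ((Z + Zᴴ) + (t : ℂ) • (Z * Zᴴ)) := by
        rw [Matrix.conjTranspose_add, Matrix.conjTranspose_smul, Matrix.conjTranspose_one]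
        have : star (t : ℂ) = (t : ℂ) := Complex.conj_ofReal t
        rw [this]
        simp only [Matrix.add_mul, Matrix.mul_add, Matrix.one_mul, Matrix.mul_one,
          Matrix.smul_mul, Matrix.mul_smul, smul_add, smul_smul]
        abel
      rw [e1, Hm_add, Hm_smul, Hm_add, Hm_smul, hH1, ← hM1, ← hM2, det_one_add, det_one_add] at h
      rw [Matrix.trace_add, Matrix.trace_smul] at h
      have e3 : Complex.normSq (1 + (t : ℂ) * (Z.trace + (t : ℂ) * (e2 Z + (t : ℂ) * Z.det))) =
          1 + 2 * t * (Z.trace + (t : ℂ) * (e2 Z + (t : ℂ) * Z.det)).re + t ^ 2 *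
            Complex.normSq (Z.trace + (t : ℂ) * (e2 Z + (t : ℂ) * Z.det)) := by
        rw [Complex.normSq_add]
        simp only [map_one, map_mul, Complex.normSq_ofReal, one_mul, Complex.conj_ofReal,
          Complex.re_ofReal_mul, Complex.conj_re]
        ring
      rw [e3] at h
      simp only [Complex.add_re, Complex.one_re, Complex.re_ofReal_mul, smul_eq_mul] at h ⊢
      nlinarith [h]
  -- conclusion
  have htr : ∀ Z : M3, (Hm B' Z).trace = Z.trace := by
    have hre : ∀ Z : M3, ((Hm B' Z).trace).re = (Z.trace).re := by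
      intro Z
      have h := hfirst Z
      rw [Hm_add, Hm_herm hBP', Matrix.trace_add, Matrix.trace_conjTranspose] at h
      have : (star (Hm B' Z).trace).re = ((Hm B' Z).trace).re := Complex.conj_re _
      rw [Complex.add_re, this] at h
      linarith
    intro Z
    apply Complex.ext (hre Z)
    have h := hre (Complex.I • Z)
    rw [Hm_smul, Matrix.trace_smul, Matrix.trace_smul] at h
    simp at h
    linarith
  refine ⟨C0, D, hC0, hdet, ?_, ?_⟩
  · rw [← Hm_one]; exact hH1
  · intro i j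
    have h1 : Hm B' (Matrix.single i j 1) = B' i j := by
      simp [Hm, Matrix.single_apply, ite_and]
    have h2 := htr (Matrix.single i j 1)
    rw [h1] at h2
    rw [h2]
    by_cases hij : i = j
    · subst hij; simp
    · simp [hij]

end H864R3
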