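import Pool.Agent.H864R3.R3

set_option autoImplicit false

namespace H864R3

open Matrix Finset
open scoped ComplexOrder

abbrev M3 := Matrix (Fin 3) (Fin 3) ℂ

/-- The fully polarised determinant of `3 × 3` matrices (six times the mixed discriminant). -/
def T (A B C : M3) : ℂ :=
  (A + B + C).det - (A + B).det - (A + C).det - (B + C).det + A.det + B.det + C.det

theorem T_eq_sum (M : Fin 3 → M3) :
    ∑ α : Equiv.Perm (Fin 3), ∑ ρ : Equiv.Perm (Fin 3),
      ((Equiv.Perm.sign α : ℤ) : ℂ) * ((Equiv.Perm.sign ρ : ℤ) : ℂ) *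
        ∏ k : Fin 3, M k (α k) (ρ k) = T (M 0) (M 1) (M 2) := by
  unfold T
  simp only [sum_perm]
  simp [Matrix.det_fin_three, Fin.prod_univ_three, Equiv.swap_apply_def, Matrix.add_apply]
  ring

theorem DV_eq_T (p q r : Fin 3 × Fin 3 → ℂ) :
    DV p q r = T (Matrix.of fun i j => p (i, j)) (Matrix.of fun i j => q (i, j))
      (Matrix.of fun i j => r (i, j)) := by
  unfold T DV
  simp only [sum_perm]
  simp [Matrix.det_fin_three, Equiv.swap_apply_def]
  ring

theorem T_conj (P Q A B C : M3) :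
    T (P * A * Q) (P * B * Q) (P * C * Q) = P.det * Q.det * T A B C := by
  unfold T
  have h : ∀ X : M3, (P * X * Q).det = P.det * Q.det * X.det := by
    intro X; rw [Matrix.det_mul, Matrix.det_mul]; ring
  have h1 : P * A * Q + P * B * Q + P * C * Q = P * (A + B + C) * Q := by
    simp [Matrix.mul_add, Matrix.add_mul]
  have h2 : P * A * Q + P * B * Q = P * (A + B) * Q := by
    simp [Matrix.mul_add, Matrix.add_mul]
  have h3 : P * A * Q + P * C * Q = P * (A + C) * Q := by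
    simp [Matrix.mul_add, Matrix.add_mul]
  have h4 : P * B * Q + P * C * Q = P * (B + C) * Q := by
    simp [Matrix.mul_add, Matrix.add_mul]
  rw [h1, h2, h3, h4]
  simp only [h]
  ring

theorem Phi6_T (B : Fin 3 → Fin 3 → M3) :
    Phi6 B = ∑ σ : Equiv.Perm (Fin 3), ((Equiv.Perm.sign σ : ℤ) : ℂ) *
      T (B 0 (σ 0)) (B 1 (σ 1)) (B 2 (σ 2)) := by
  unfold Phi6
  refine Finset.sum_congr rfl fun σ _ => ?_
  rw [T_eq_sum (fun k => B k (σ k))]

/-- The matrix of `(a,b)` entries of the family. -/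
def P (B : Fin 3 → Fin 3 → M3) (a b : Fin 3) : M3 := Matrix.of fun i j => B i j a b

theorem Phi6_T' (B : Fin 3 → Fin 3 → M3) :
    Phi6 B = ∑ τ : Equiv.Perm (Fin 3), ((Equiv.Perm.sign τ : ℤ) : ℂ) *
      T (P B 0 (τ 0)) (P B 1 (τ 1)) (P B 2 (τ 2)) := by
  rw [Phi6_eq]
  refine Finset.sum_congr rfl fun τ _ => ?_
  rw [DV_eq_T]
  rfl

/-- Transformation on the target side. -/
def trD (D : M3) (B : Fin 3 → Fin 3 → M3) : Fin 3 → Fin 3 → M3 := fun i j => D * B i j * Dᴴ

/-- Transformation on the source side. -/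
def trC (C : M3) (B : Fin 3 → Fin 3 → M3) : Fin 3 → Fin 3 → M3 :=
  fun k l => ∑ i, ∑ j, (C i k * star (C j l)) • B i j

theorem Phi6_trD (D : M3) (B : Fin 3 → Fin 3 → M3) :
    Phi6 (trD D B) = D.det * star D.det * Phi6 B := by
  rw [Phi6_T, Phi6_T, Finset.mul_sum]
  refine Finset.sum_congr rfl fun σ _ => ?_
  simp only [trD, T_conj, Matrix.det_conjTranspose]
  ring

theorem P_trC (C : M3) (B : Fin 3 → Fin 3 → M3) (a b : Fin 3) :
    P (trC C B) a b = Cᵀ * P B a b * (C.map star) := by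
  ext k l
  simp only [P, trC, Matrix.of_apply, Matrix.sum_apply, Matrix.smul_apply, smul_eq_mul,
    Matrix.mul_apply, Matrix.transpose_apply, Matrix.map_apply, Finset.sum_mul]
  rw [Finset.sum_comm]
  refine Finset.sum_congr rfl fun j _ => Finset.sum_congr rfl fun i _ => ?_
  ring

theorem Phi6_trC (C : M3) (B : Fin 3 → Fin 3 → M3) :
    Phi6 (trC C B) = C.det * star C.det * Phi6 B := by
  have hd : (C.map star).det = star C.det := by
    rw [← Matrix.det_conjTranspose, ← Matrix.det_transpose, Matrix.conjTranspose,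
      Matrix.transpose_map]
  rw [Phi6_T', Phi6_T', Finset.mul_sum]
  refine Finset.sum_congr rfl fun σ _ => ?_
  simp only [P_trC, T_conj, Matrix.det_transpose, hd]
  ring

theorem Phi6_smul (c : ℂ) (B : Fin 3 → Fin 3 → M3) :
    Phi6 (fun i j => c • B i j) = c ^ 3 * Phi6 B := by
  rw [Phi6_T, Phi6_T, Finset.mul_sum]
  refine Finset.sum_congr rfl fun σ _ => ?_
  have : ∀ X Y Z : M3, T (c • X) (c • Y) (c • Z) = c ^ 3 * T X Y Z := by
    intro X Y Z
    unfold T
    simp only [← smul_add, Matrix.det_smul, Fintype.card_fin]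
    ring
  rw [this]
  ring

/-- The linear map `X ↦ ∑ X_ij B_ij`. -/
def Hm (B : Fin 3 → Fin 3 → M3) (X : M3) : M3 := ∑ i, ∑ j, X i j • B i j

/-- Condition (i): block positivity (Griffiths positivity). -/
def BP (B : Fin 3 → Fin 3 → M3) : Prop :=
  ∀ ξ : Fin 3 → ℂ, ξ ≠ 0 → (∑ i : Fin 3, ∑ j : Fin 3, (ξ i * star (ξ j)) • B i j).PosDef

theorem Hm_add (B : Fin 3 → Fin 3 → M3) (X Y : M3) : Hm B (X + Y) = Hm B X + Hm B Y := by
  simp [Hm, add_smul, Finset.sum_add_distrib]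

theorem Hm_smul (B : Fin 3 → Fin 3 → M3) (c : ℂ) (X : M3) : Hm B (c • X) = c • Hm B X := by
  simp [Hm, Finset.smul_sum, mul_smul]

theorem Hm_one (B : Fin 3 → Fin 3 → M3) : Hm B 1 = ∑ i, B i i := by
  simp [Hm, Matrix.one_apply]

theorem Hm_trD (D : M3) (B : Fin 3 → Fin 3 → M3) (X : M3) :
    Hm (trD D B) X = D * Hm B X * Dᴴ := by
  simp [Hm, trD, Finset.mul_sum, Finset.sum_mul]

theorem Hm_trC (C : M3) (B : Fin 3 → Fin 3 → M3) (X : M3) :
    Hm (trC C B) X = Hm B (C * X * Cᴴ) := by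
  simp only [Hm, trC, Matrix.mul_apply, Matrix.conjTranspose_apply, Finset.smul_sum,
    Finset.sum_smul, Finset.sum_mul, smul_smul]
  have : ∀ k l : Fin 3, ∑ i, ∑ j, (X k l * (C i k * star (C j l))) • B i j =
      ∑ i, ∑ j, (C i k * X k l * star (C j l)) • B i j := by
    intro k l
    refine Finset.sum_congr rfl fun i _ => Finset.sum_congr rfl fun j _ => ?_
    congr 1; ring
  simp only [this]
  calc ∑ k, ∑ l, ∑ i, ∑ j, (C i k * X k l * star (C j l)) • B i j
      = ∑ k, ∑ i, ∑ l, ∑ j, (C i k * X k l * star (C j l)) • B i j :=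
        Finset.sum_congr rfl fun k _ => Finset.sum_comm
    _ = ∑ k, ∑ i, ∑ j, ∑ l, (C i k * X k l * star (C j l)) • B i j :=
        Finset.sum_congr rfl fun k _ => Finset.sum_congr rfl fun i _ => Finset.sum_comm
    _ = ∑ i, ∑ k, ∑ j, ∑ l, (C i k * X k l * star (C j l)) • B i j := Finset.sum_comm
    _ = ∑ i, ∑ j, ∑ k, ∑ l, (C i k * X k l * star (C j l)) • B i j :=
        Finset.sum_congr rfl fun i _ => Finset.sum_comm
    _ = ∑ i, ∑ j, ∑ l, ∑ k, (C i k * X k l * star (C j l)) • B i j :=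
        Finset.sum_congr rfl fun i _ => Finset.sum_congr rfl fun j _ => Finset.sum_comm

theorem BP_iff (B : Fin 3 → Fin 3 → M3) :
    BP B ↔ ∀ ξ : Fin 3 → ℂ, ξ ≠ 0 → (Hm B (Matrix.vecMulVec ξ (star ξ))).PosDef := by
  simp [BP, Hm, Matrix.vecMulVec_apply]

theorem BP_trC {B : Fin 3 → Fin 3 → M3} (hB : BP B) {C : M3} (hC : C.det ≠ 0) :
    BP (trC C B) := by
  rw [BP_iff] at hB ⊢
  intro ξ hξ
  rw [Hm_trC, Matrix.mul_vecMulVec, Matrix.vecMulVec_mul]
  have h1 : C *ᵥ ξ ≠ 0 := by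
    intro h
    apply hξ
    have hu : IsUnit C := (Matrix.isUnit_iff_isUnit_det C).mpr (isUnit_iff_ne_zero.mpr hC)
    exact Matrix.eq_zero_of_mulVec_eq_zero hC h
  have h2 : star ξ ᵥ* Cᴴ = star (C *ᵥ ξ) := by
    rw [Matrix.star_mulVec]
  rw [h2]
  exact hB _ h1

theorem BP_trD {B : Fin 3 → Fin 3 → M3} (hB : BP B) {D : M3} (hD : D.det ≠ 0) :
    BP (trD D B) := by
  rw [BP_iff] at hB ⊢
  intro ξ hξ
  rw [Hm_trD]
  have hu : IsUnit D := (Matrix.isUnit_iff_isUnit_det D).mpr (isUnit_iff_ne_zero.mpr hD)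
  exact (hB ξ hξ).mul_mul_conjTranspose_same (Matrix.vecMul_injective_of_isUnit hu)

theorem Hm_posDef {B : Fin 3 → Fin 3 → M3} (hB : BP B) {C : M3} (hC : C ≠ 0) :
    (Hm B (C * Cᴴ)).PosDef := by
  have e : C * Cᴴ = ∑ k, Matrix.vecMulVec (fun i => C i k) (star fun i => C i k) := by
    ext i j
    simp [Matrix.mul_apply, Matrix.sum_apply, Matrix.vecMulVec_apply]
  have e2 : Hm B (C * Cᴴ) = ∑ k, Hm B (Matrix.vecMulVec (fun i => C i k) (star fun i => C i k)) := by
    rw [e]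
    simp only [Fin.sum_univ_three, Hm_add]
  obtain ⟨k, hk⟩ : ∃ k, (fun i => C i k) ≠ 0 := by
    by_contra h
    push_neg at h
    apply hC
    ext i k
    exact congrFun (h k) i
  have hB' := (BP_iff B).mp hB
  rw [e2, ← Finset.add_sum_erase _ _ (Finset.mem_univ k)]
  refine (hB' _ hk).add_posSemidef ?_
  refine Matrix.posSemidef_sum _ fun l _ => ?_
  by_cases hl : (fun i => C i l) = 0
  · rw [hl]
    simp [Hm, Matrix.PosSemidef.zero]
  · exact (hB' _ hl).posSemidef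

end H864R3
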